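import Pool.Agent.H165.RG.Stm

/-!
# ASY: the numerical inequality
-/

set_option autoImplicit false

namespace Pool.Agent.H165.RG

namespace ASYL

open Filter Topology

theorem fact_le (n : ℕ) (hn : 1 ≤ n) :
    (n.factorial : ℝ) * Real.exp 1 ^ n ≤ Real.exp 1 * n * (n : ℝ)^n := by
  obtain ⟨t, rfl⟩ : ∃ t, n = t + 1 := ⟨n - 1, by omega⟩
  have h := Stirling.stirlingSeq'_antitone (Nat.zero_le t)
  simp only [Function.comp_apply, Nat.succ_eq_add_one, zero_add, Stirling.stirlingSeq_one] at h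
  unfold Stirling.stirlingSeq at h
  have hn0 : (0:ℝ) < ((t + 1 : ℕ) : ℝ) := by positivity
  have he : 0 < Real.exp 1 := Real.exp_pos 1
  have hs : √(2 * ((t + 1 : ℕ) : ℝ)) = √2 * √((t + 1 : ℕ) : ℝ) := Real.sqrt_mul (by norm_num) _
  have hs2 : 0 < √(2:ℝ) := Real.sqrt_pos.mpr (by norm_num)
  have hsn : 0 < √((t + 1 : ℕ) : ℝ) := Real.sqrt_pos.mpr hn0
  rw [hs, div_pow, div_le_div_iff₀ (by positivity) hs2] at h
  have hsl : √((t + 1 : ℕ) : ℝ) ≤ ((t + 1 : ℕ) : ℝ) := by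
    have h1 : (1:ℝ) ≤ ((t + 1 : ℕ) : ℝ) := by exact_mod_cast hn
    calc √((t + 1 : ℕ) : ℝ) = √((t + 1 : ℕ) : ℝ) * 1 := (mul_one _).symm
      _ ≤ √((t + 1 : ℕ) : ℝ) * √((t + 1 : ℕ) : ℝ) :=
          mul_le_mul_of_nonneg_left (Real.one_le_sqrt.mpr h1) hsn.le
      _ = ((t + 1 : ℕ) : ℝ) := Real.mul_self_sqrt hn0.le
  set N : ℝ := ((t + 1 : ℕ) : ℝ) with hN
  have h2 : ((t + 1).factorial : ℝ) ≤ Real.exp 1 * √N * (N ^ (t+1) / Real.exp 1 ^ (t+1)) := by
    have h3 : ((t + 1).factorial : ℝ) * √2 ≤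
        (Real.exp 1 * √N * (N ^ (t+1) / Real.exp 1 ^ (t+1))) * √2 := by
      calc ((t + 1).factorial : ℝ) * √2 ≤
          Real.exp 1 * (√2 * √N * (N ^ (t+1) / Real.exp 1 ^ (t+1))) := h
        _ = _ := by ring
    exact le_of_mul_le_mul_right h3 hs2
  calc ((t + 1).factorial : ℝ) * Real.exp 1 ^ (t+1) ≤
      Real.exp 1 * √N * (N ^ (t+1) / Real.exp 1 ^ (t+1)) * Real.exp 1 ^ (t+1) :=
        mul_le_mul_of_nonneg_right h2 (by positivity)
    _ = Real.exp 1 * √N * N ^ (t+1) := by field_simp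
    _ ≤ Real.exp 1 * N * N ^ (t+1) := by gcongr

theorem le_fact (n : ℕ) : (n : ℝ)^n ≤ (n.factorial : ℝ) * Real.exp 1 ^ n := by
  have h := Real.pow_div_factorial_le_exp (n : ℝ) (Nat.cast_nonneg n) n
  rw [div_le_iff₀ (by positivity)] at h
  rw [Real.exp_one_pow, mul_comm]
  exact h

/-- from the inequality between the powers to the inequality with factorials -/
theorem step1 (p l j k : ℕ) (hl : 1 ≤ l) (hj : 1 ≤ j) (hk : k = j + p * l)
    (h : (128:ℝ)^k * (Real.exp 1 ^ (p+1) * j * (l:ℝ)^p) < 127^j * 383^(p*l)) :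
    (128 * (k:ℝ))^k * (j.factorial * (l.factorial : ℝ)^p) <
      k.factorial * ((127 * (j:ℝ))^j * (383 * (l:ℝ))^(p*l)) := by
  have he : 0 < Real.exp 1 := Real.exp_pos 1
  have hl0 : (0:ℝ) < l := by exact_mod_cast hl
  have hj0 : (0:ℝ) < j := by exact_mod_cast hj
  have hk0 : (0:ℝ) < k := by
    have : 1 ≤ k := by omega
    exact_mod_cast this
  have h1 := fact_le j hj
  have h2 := fact_le l hl
  have h3 := le_fact k
  have h4 : ((l.factorial : ℝ) * Real.exp 1 ^ l)^p ≤ (Real.exp 1 * l * (l : ℝ)^l)^p :=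
    pow_le_pow_left₀ (by positivity) h2 p
  have hek : Real.exp 1 ^ k = Real.exp 1 ^ j * (Real.exp 1 ^ l)^p := by
    rw [hk, pow_add, ← pow_mul, mul_comm p l]
  have key : (128 * (k:ℝ))^k * (j.factorial * (l.factorial : ℝ)^p) * Real.exp 1 ^ k <
      k.factorial * ((127 * (j:ℝ))^j * (383 * (l:ℝ))^(p*l)) * Real.exp 1 ^ k := by
    calc (128 * (k:ℝ))^k * (j.factorial * (l.factorial : ℝ)^p) * Real.exp 1 ^ k
        = (128 * (k:ℝ))^k * ((j.factorial * Real.exp 1 ^ j) *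
            ((l.factorial : ℝ) * Real.exp 1 ^ l)^p) := by rw [hek, mul_pow (l.factorial : ℝ)]; ring
      _ ≤ (128 * (k:ℝ))^k * ((Real.exp 1 * j * (j : ℝ)^j) * (Real.exp 1 * l * (l : ℝ)^l)^p) := by
          gcongr
      _ = (128^k * (Real.exp 1 ^ (p+1) * j * (l:ℝ)^p)) *
            ((k:ℝ)^k * ((j:ℝ)^j * (l:ℝ)^(p*l))) := by
          rw [mul_pow (128:ℝ), mul_pow (Real.exp 1 * (l:ℝ)), mul_pow (Real.exp 1), ← pow_mul,
            mul_comm l p, pow_succ]
          ring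
      _ < (127^j * 383^(p*l)) * ((k:ℝ)^k * ((j:ℝ)^j * (l:ℝ)^(p*l))) :=
          mul_lt_mul_of_pos_right h (by positivity)
      _ = (k:ℝ)^k * ((127 * (j:ℝ))^j * (383 * (l:ℝ))^(p*l)) := by
          rw [mul_pow (127:ℝ), mul_pow (383:ℝ)]; ring
      _ ≤ (k.factorial * Real.exp 1 ^ k) * ((127 * (j:ℝ))^j * (383 * (l:ℝ))^(p*l)) := by
          gcongr
      _ = _ := by ring
  exact lt_of_mul_lt_mul_right key (by positivity)

/-- the choice of `l` -/
theorem step2 (p z : ℕ) (hp : 1 ≤ p) (θ : ℝ) (hθ : 1 < θ) (c : ℝ) :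
    ∃ l : ℕ, 1 ≤ l ∧ c * (z * p * l) * (l:ℝ)^p < θ^(p*l) := by
  have hρ : 1 < θ^p := one_lt_pow₀ hθ (by omega)
  have h := tendsto_pow_const_div_const_pow_of_one_lt (p+1) hρ
  have h2 := h.const_mul (c * (z * p))
  rw [mul_zero] at h2
  have h3 := (h2.eventually (gt_mem_nhds (one_pos))).and (eventually_ge_atTop 1)
  obtain ⟨l, hl1, hl2⟩ := h3.exists
  refine ⟨l, hl2, ?_⟩
  rw [← mul_div_assoc, div_lt_one (by positivity)] at hl1
  calc c * (z * p * l) * (l:ℝ)^p = c * (z * p) * (l:ℝ)^(p+1) := by rw [pow_succ]; ring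
    _ < (θ^p)^l := hl1
    _ = θ^(p*l) := by rw [← pow_mul]

/-- the limit `M → ∞` -/
theorem step3 (A B : ℝ) (n : ℕ) (h : A < B * 383^n) :
    ∃ m0 : ℕ, ∀ m : ℕ, m0 ≤ m → A * ((m+1 : ℕ) : ℝ)^n < B * (383 * ((m+1 : ℕ) : ℝ) - 1)^n := by
  have h1 : Tendsto (fun m : ℕ => (1:ℝ) / ((m:ℝ) + 1)) atTop (𝓝 0) :=
    tendsto_one_div_add_atTop_nhds_zero_nat
  have h2 : Tendsto (fun m : ℕ => B * (383 - (1:ℝ) / ((m:ℝ) + 1))^n) atTop (𝓝 (B * (383 - 0)^n)) :=
    ((tendsto_const_nhds.sub h1).pow n).const_mul B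
  rw [sub_zero] at h2
  obtain ⟨m0, hm0⟩ := eventually_atTop.mp (h2.eventually (lt_mem_nhds h))
  refine ⟨m0, fun m hm => ?_⟩
  have h3 := hm0 m hm
  have hM : (0:ℝ) < ((m+1 : ℕ) : ℝ) := by positivity
  have h4 : (383 * ((m+1 : ℕ) : ℝ) - 1) = (383 - (1:ℝ) / ((m:ℝ) + 1)) * ((m+1 : ℕ) : ℝ) := by
    push_cast
    have : (m:ℝ) + 1 ≠ 0 := by positivity
    field_simp
  rw [h4, mul_pow, ← mul_assoc]
  exact mul_lt_mul_of_pos_right h3 (by positivity)

/-- the final assembly for general parameters -/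
theorem step4 (p l j k M : ℕ) (hM : 1 ≤ M) (hk : k = j + p * l) (hl : 1 ≤ l)
    (h : (128 * (k:ℝ))^k * (j.factorial * (l.factorial : ℝ)^p) * (M:ℝ)^(p*l) <
      (k.factorial * (127 * (j:ℝ))^j * (l:ℝ)^(p*l)) * (383 * (M:ℝ) - 1)^(p*l))
    (n1 n2 n3 : ℕ) (h1 : n1 ≤ k * (128 * M)) (h2 : n2 + 1 = j * (127 * M) + j)
    (h3 : n3 + 1 = 383 * l * M) :
    n1.choose k < n2.choose j * (n3.choose l)^p := by
  have a1 : (k.factorial : ℝ) * n1.choose k ≤ (128 * (k:ℝ) * M)^k := by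
    have e : k.factorial * n1.choose k ≤ (k * (128 * M))^k := by
      rw [← Nat.descFactorial_eq_factorial_mul_choose]
      exact (Nat.descFactorial_le_pow _ _).trans (Nat.pow_le_pow_left h1 k)
    have e2 : ((k.factorial * n1.choose k : ℕ) : ℝ) ≤ (((k * (128 * M))^k : ℕ) : ℝ) := by
      exact_mod_cast e
    push_cast at e2
    calc (k.factorial : ℝ) * n1.choose k ≤ ((k:ℝ) * (128 * M))^k := e2
      _ = _ := by ring
  have a2 : (127 * (j:ℝ) * M)^j ≤ (j.factorial : ℝ) * n2.choose j := by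
    have e : (j * (127 * M))^j ≤ j.factorial * n2.choose j := by
      rw [← Nat.descFactorial_eq_factorial_mul_choose]
      have := Nat.pow_sub_le_descFactorial n2 j
      rwa [h2, Nat.add_sub_cancel] at this
    have e2 : (((j * (127 * M))^j : ℕ) : ℝ) ≤ ((j.factorial * n2.choose j : ℕ) : ℝ) := by
      exact_mod_cast e
    push_cast at e2
    calc (127 * (j:ℝ) * M)^j = ((j:ℝ) * (127 * M))^j := by ring
      _ ≤ _ := e2
  have a3 : ((l:ℝ) * (383 * M - 1))^l ≤ (l.factorial : ℝ) * n3.choose l := by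
    have e : (383 * l * M - l)^l ≤ l.factorial * n3.choose l := by
      rw [← Nat.descFactorial_eq_factorial_mul_choose]
      have := Nat.pow_sub_le_descFactorial n3 l
      rwa [h3] at this
    have e2 : (((383 * l * M - l)^l : ℕ) : ℝ) ≤ ((l.factorial * n3.choose l : ℕ) : ℝ) := by
      exact_mod_cast e
    have e3 : l ≤ 383 * l * M := by nlinarith
    push_cast [Nat.cast_sub e3] at e2
    calc ((l:ℝ) * (383 * M - 1))^l = (383 * (l:ℝ) * M - l)^l := by congr 1; ring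
      _ ≤ _ := e2
  have hM1 : (1:ℝ) ≤ M := by exact_mod_cast hM
  have hM0 : (0:ℝ) < 383 * (M:ℝ) - 1 := by linarith
  have hMp : (0:ℝ) < M := by linarith
  have hl0 : (0:ℝ) < l := by exact_mod_cast hl
  have a4 : ((l:ℝ) * (383 * M - 1))^(p*l) ≤ ((l.factorial : ℝ) * n3.choose l)^p := by
    rw [mul_comm p l, pow_mul]
    exact pow_le_pow_left₀ (by positivity) a3 p
  have hMk : (M:ℝ)^k = (M:ℝ)^j * (M:ℝ)^(p*l) := by rw [hk, pow_add]
  have key : ((k.factorial : ℝ) * (j.factorial * (l.factorial : ℝ)^p)) * (n1.choose k : ℝ) <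
      ((k.factorial : ℝ) * (j.factorial * (l.factorial : ℝ)^p)) *
        ((n2.choose j : ℝ) * (n3.choose l : ℝ)^p) := by
    calc ((k.factorial : ℝ) * (j.factorial * (l.factorial : ℝ)^p)) * (n1.choose k : ℝ)
        = ((k.factorial : ℝ) * n1.choose k) * (j.factorial * (l.factorial : ℝ)^p) := by ring
      _ ≤ (128 * (k:ℝ) * M)^k * (j.factorial * (l.factorial : ℝ)^p) :=
          mul_le_mul_of_nonneg_right a1 (by positivity)
      _ = ((128 * (k:ℝ))^k * (j.factorial * (l.factorial : ℝ)^p) * (M:ℝ)^(p*l)) * (M:ℝ)^j := by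
          rw [mul_pow (128 * (k:ℝ)), hMk]; ring
      _ < ((k.factorial * (127 * (j:ℝ))^j * (l:ℝ)^(p*l)) * (383 * (M:ℝ) - 1)^(p*l)) * (M:ℝ)^j :=
          mul_lt_mul_of_pos_right h (by positivity)
      _ = (k.factorial : ℝ) * ((127 * (j:ℝ) * M)^j * ((l:ℝ) * (383 * M - 1))^(p*l)) := by
          rw [mul_pow (127 * (j:ℝ)), mul_pow (l:ℝ)]; ring
      _ ≤ (k.factorial : ℝ) * (((j.factorial : ℝ) * n2.choose j) *
            ((l.factorial : ℝ) * n3.choose l)^p) := by gcongr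
      _ = _ := by rw [mul_pow (l.factorial : ℝ)]; ring
  have h5 := lt_of_mul_lt_mul_left key (by positivity)
  exact_mod_cast h5

theorem theta : (1:ℝ) < 127^128 * 383 / 128^129 := by
  rw [lt_div_iff₀ (by positivity)]
  norm_num

end ASYL

open ASYL in
theorem asy : S_ASY := by
  obtain ⟨l, hl, h⟩ := step2 256 128 (by norm_num) _ theta (Real.exp 1 ^ (256 + 1))
  refine ⟨l, hl, ?_⟩
  have hj : 256 * l * 129 = 256 * l * 128 + 256 * l := by ring
  have h1 := step1 256 l (256 * l * 128) (256 * l * 129) hl (by omega) hj (by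
    have e : (127:ℝ)^(256 * l * 128) * 383^(256*l) =
        128^(256 * l * 129) * (127^128 * 383 / 128^129)^(256*l) := by
      rw [div_pow, mul_pow ((127:ℝ)^128), ← pow_mul, ← pow_mul, mul_comm 128 (256 * l),
        mul_comm 129 (256 * l)]
      have : (128:ℝ)^(256 * l * 129) ≠ 0 := by positivity
      field_simp
    rw [e]
    refine mul_lt_mul_of_pos_left ?_ (by positivity)
    calc Real.exp 1 ^ (256 + 1) * ((256 * l * 128 : ℕ) : ℝ) * (l:ℝ)^256
        = Real.exp 1 ^ (256 + 1) * (((128:ℕ):ℝ) * ((256:ℕ):ℝ) * l) * (l:ℝ)^256 := by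
          push_cast
          congr 2
          ring
      _ < _ := h)
  obtain ⟨m0, hm0⟩ := step3
    ((128 * ((256 * l * 129 : ℕ):ℝ))^(256 * l * 129) *
      ((256 * l * 128).factorial * (l.factorial : ℝ)^256))
    ((256 * l * 129).factorial * (127 * ((256 * l * 128 : ℕ):ℝ))^(256 * l * 128) *
      (l:ℝ)^(256*l)) (256 * l) (by
        rw [mul_pow (383:ℝ)] at h1
        calc _ < _ := h1
          _ = _ := by ring)
  refine ⟨m0, fun m hm => ?_⟩
  exact step4 256 l (256 * l * 128) (256 * l * 129) (m+1) (by omega) hj hl (hm0 m hm) _ _ _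
    (Nat.sub_le _ _) (by
      have : 1 ≤ 256 * l * 128 := by omega
      omega) (by
      have : 1 ≤ 256 * l * (m + 1) := Nat.mul_pos (by omega) (by omega)
      have e : 256 * l * (m + 1) + l * (127 * (m + 1)) = 383 * l * (m + 1) := by ring
      omega)

end Pool.Agent.H165.RG
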