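import Pool.Agent.H165.RG.Stm

/-!
# The axis lemma `S_AX` (helper356)
-/

set_option autoImplicit false

namespace Pool.Agent.H165.RG

open Finset

namespace AXL

section gen

variable {X A ι : Type} [Fintype X] [DecidableEq X] [DecidableEq ι] [AddCommMonoid A]

/-- the sum of the weights of the group `i`, without the elements of `D` -/
def G (D : Finset X) (w : X → A) (φ : X → ι) (i : ι) : A :=
  ∑ v ∈ univ.filter (fun v => v ∉ D ∧ φ v = i), w v

theorem G_update (D : Finset X) (w : X → A) (φ : X → ι) (v0 : X) (h : v0 ∉ D) (j i : ι) :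
    G D w (Function.update φ v0 j) i + (if φ v0 = i then w v0 else 0) =
      G D w φ i + (if j = i then w v0 else 0) := by
  unfold G
  rw [Finset.sum_filter, Finset.sum_filter, ← Finset.add_sum_erase univ _ (mem_univ v0),
    ← Finset.add_sum_erase univ (fun v => if v ∉ D ∧ φ v = i then w v else 0) (mem_univ v0)]
  have e : ∑ x ∈ univ.erase v0, (if x ∉ D ∧ Function.update φ v0 j x = i then w x else 0) =
      ∑ x ∈ univ.erase v0, (if x ∉ D ∧ φ x = i then w x else 0) := by
    refine sum_congr rfl fun x hx => ?_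
    rw [Function.update_of_ne (ne_of_mem_erase hx)]
  rw [e]
  simp only [h, not_false_eq_true, true_and, Function.update_self]
  abel

/-- move `p1, p2` to the group `i1` and `q1, q2` to the group `i2` -/
def mv (φ : X → ι) (p1 p2 q1 q2 : X) (i1 i2 : ι) : X → ι :=
  Function.update (Function.update (Function.update (Function.update φ p1 i1) p2 i1) q1 i2) q2 i2

theorem G_mv (D : Finset X) (w : X → A) (φ : X → ι) (p1 p2 q1 q2 : X) (i1 i2 i : ι)
    (h1 : p1 ∉ D) (h2 : p2 ∉ D) (h3 : q1 ∉ D) (h4 : q2 ∉ D) (n12 : p2 ≠ p1) (n13 : q1 ≠ p1)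
    (n14 : q2 ≠ p1) (n23 : q1 ≠ p2) (n24 : q2 ≠ p2) (n34 : q2 ≠ q1) :
    G D w (mv φ p1 p2 q1 q2 i1 i2) i + ((if φ p1 = i then w p1 else 0) +
      (if φ p2 = i then w p2 else 0) + (if φ q1 = i then w q1 else 0) +
      (if φ q2 = i then w q2 else 0)) =
    G D w φ i + ((if i1 = i then w p1 else 0) + (if i1 = i then w p2 else 0) +
      (if i2 = i then w q1 else 0) + (if i2 = i then w q2 else 0)) := by
  have e1 := G_update D w φ p1 h1 i1 i
  have e2 := G_update D w (Function.update φ p1 i1) p2 h2 i1 i
  have e3 := G_update D w (Function.update (Function.update φ p1 i1) p2 i1) q1 h3 i2 i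
  have e4 := G_update D w (Function.update (Function.update (Function.update φ p1 i1) p2 i1) q1 i2)
    q2 h4 i2 i
  rw [Function.update_of_ne n12] at e2
  rw [Function.update_of_ne n23, Function.update_of_ne n13] at e3
  rw [Function.update_of_ne n34, Function.update_of_ne n24, Function.update_of_ne n14] at e4
  unfold mv
  set a4 := (if φ q2 = i then w q2 else 0)
  set a3 := (if φ q1 = i then w q1 else 0)
  set a2 := (if φ p2 = i then w p2 else 0)
  set a1 := (if φ p1 = i then w p1 else 0)
  set b1 := (if i1 = i then w p1 else 0)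
  set b2 := (if i1 = i then w p2 else 0)
  set b3 := (if i2 = i then w q1 else 0)
  set b4 := (if i2 = i then w q2 else 0)
  calc _ = (G D w (Function.update (Function.update (Function.update (Function.update φ p1 i1)
              p2 i1) q1 i2) q2 i2) i + a4) + (a1 + a2 + a3) := by abel
    _ = (G D w (Function.update (Function.update (Function.update φ p1 i1) p2 i1) q1 i2) i + a3) +
          (a1 + a2) + b4 := by rw [e4]; abel
    _ = (G D w (Function.update (Function.update φ p1 i1) p2 i1) i + a2) + a1 + b3 + b4 := by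
          rw [e3]; abel
    _ = (G D w (Function.update φ p1 i1) i + a1) + b2 + b3 + b4 := by rw [e2]; abel
    _ = _ := by rw [e1]; abel

end gen

/-- repair along a list -/
theorem repair (m : ℕ) (D : Finset (Fin 6 × ZMod (m + 1))) (b : Fin m → ZMod (m + 1))
    (hs : ∀ φ : Fin 6 × ZMod (m + 1) → Fin m, ∑ i, (b i - G D lb φ i) = 0) :
    ∀ (L : List (Fin m)) (φ : Fin 6 × ZMod (m + 1) → Fin m) (U2 U3 : Finset (ZMod (m + 1))),
      L.Nodup → (∀ i, i ∉ L → b i - G D lb φ i = 0) →
      (∀ y, y ∉ U2 → ((2 : Fin 6), y) ∉ D ∧ ((3 : Fin 6), y) ∉ D ∧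
        φ ((2 : Fin 6), y) = φ ((3 : Fin 6), y)) →
      (∀ y, y ∉ U3 → ((4 : Fin 6), y) ∉ D ∧ ((5 : Fin 6), y) ∉ D ∧
        φ ((4 : Fin 6), y) = φ ((5 : Fin 6), y)) →
      U2.card + U3.card + 2 * L.length ≤ m + 2 →
      ∃ φ' : Fin 6 × ZMod (m + 1) → Fin m, (∀ i, b i - G D lb φ' i = 0) ∧
        ∀ i, G D (fun _ => (1 : ℕ)) φ' i ≤ G D (fun _ => (1 : ℕ)) φ i +
          (if L.head? = some i then 2 else if i ∈ L then 4 else 0) := by
  intro L
  induction L with
  | nil =>
    intro φ U2 U3 _ h _ _ _
    exact ⟨φ, fun i => h i (by simp), fun i => by omega⟩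
  | cons i1 L ih =>
    intro φ U2 U3 hn hL h2 h3 hc
    cases L with
    | nil =>
      refine ⟨φ, fun i => ?_, fun i => by omega⟩
      by_cases hi : i = i1
      · have := hs φ
        rw [Finset.sum_eq_single i1] at this
        · rw [hi]; exact this
        · intro j _ hj
          exact hL j (by simpa using hj)
        · simp
      · exact hL i (by simpa using hi)
    | cons i2 L' =>
      set c := b i1 - G D lb φ i1 with hcdef
      -- the choice of `y`
      obtain ⟨y, hy2, hy3⟩ : ∃ y, y ∉ U2 ∧ c - y ∉ U3 := by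
        by_contra hcon
        push Not at hcon
        have hsub : (univ : Finset (ZMod (m + 1))) ⊆ U2 ∪ U3.image (fun t => c - t) := by
          intro y _
          by_cases hy : y ∈ U2
          · exact mem_union_left _ hy
          · exact mem_union_right _ (mem_image.2 ⟨c - y, hcon y hy, by ring⟩)
        have h4 := (card_le_card hsub).trans (card_union_le _ _)
        have h5 : (U3.image (fun t => c - t)).card ≤ U3.card := card_image_le
        rw [card_univ, ZMod.card] at h4
        simp only [List.length_cons] at hc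
        omega
      obtain ⟨d2, d3, e23⟩ := h2 y hy2
      obtain ⟨d4, d5, e45⟩ := h3 (c - y) hy3
      set φ1 := mv φ ((2 : Fin 6), y) ((4 : Fin 6), c - y) ((3 : Fin 6), y) ((5 : Fin 6), c - y)
        i1 i2 with hφ1
      have hG : ∀ i, G D lb φ1 i = G D lb φ i + ((if i1 = i then c else 0) -
          (if i2 = i then c else 0)) := by
        intro i
        have := G_mv D lb φ ((2 : Fin 6), y) ((4 : Fin 6), c - y) ((3 : Fin 6), y)
          ((5 : Fin 6), c - y) i1 i2 i d2 d4 d3 d5 (by simp) (by simp) (by simp) (by simp)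
          (by simp) (by simp)
        rw [← hφ1, e23, e45] at this
        have l2 : lb ((2 : Fin 6), y) = y := by simp [lb]
        have l3 : lb ((3 : Fin 6), y) = -y := by simp [lb]
        have l4 : lb ((4 : Fin 6), c - y) = c - y := by simp [lb]
        have l5 : lb ((5 : Fin 6), c - y) = -(c - y) := by simp [lb]
        rw [l2, l3, l4, l5] at this
        split_ifs at this ⊢ <;> linear_combination this
      have hN : ∀ i, G D (fun _ => (1 : ℕ)) φ1 i ≤ G D (fun _ => (1 : ℕ)) φ i +
          ((if i1 = i then 2 else 0) + (if i2 = i then 2 else 0)) := by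
        intro i
        have := G_mv D (fun _ => (1 : ℕ)) φ ((2 : Fin 6), y) ((4 : Fin 6), c - y) ((3 : Fin 6), y)
          ((5 : Fin 6), c - y) i1 i2 i d2 d4 d3 d5 (by simp) (by simp) (by simp) (by simp)
          (by simp) (by simp)
        rw [← hφ1] at this
        split_ifs at this ⊢ <;> omega
      have hn' : (i2 :: L').Nodup := (List.nodup_cons.1 hn).2
      have hi1 : i1 ∉ i2 :: L' := (List.nodup_cons.1 hn).1
      have hi12 : i1 ≠ i2 := fun h => hi1 (by simp [h])
      have s1 : ∀ i, i ∉ i2 :: L' → b i - G D lb φ1 i = 0 := by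
        intro i hi
        rw [hG i]
        by_cases ha : i1 = i
        · subst ha
          rw [if_pos rfl, if_neg (fun h => hi (by simp [h]))]
          rw [hcdef]
          ring
        · have hb : i2 ≠ i := fun h => hi (by simp [h])
          rw [if_neg ha, if_neg hb]
          have := hL i (by
            simp only [List.mem_cons, not_or] at hi ⊢
            exact ⟨fun h => ha h.symm, hi⟩)
          rw [sub_zero, add_zero]
          exact this
      have s2 : ∀ t, t ∉ insert y U2 → ((2 : Fin 6), t) ∉ D ∧ ((3 : Fin 6), t) ∉ D ∧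
          φ1 ((2 : Fin 6), t) = φ1 ((3 : Fin 6), t) := by
        intro t ht
        simp only [mem_insert, not_or] at ht
        obtain ⟨k2, k3, k⟩ := h2 t ht.2
        refine ⟨k2, k3, ?_⟩
        rw [hφ1]
        unfold mv
        have hne : t ≠ y := ht.1
        simp only [Function.update_apply, Prod.mk.injEq]
        simp [hne, k]
      have s3 : ∀ t, t ∉ insert (c - y) U3 → ((4 : Fin 6), t) ∉ D ∧ ((5 : Fin 6), t) ∉ D ∧
          φ1 ((4 : Fin 6), t) = φ1 ((5 : Fin 6), t) := by
        intro t ht
        simp only [mem_insert, not_or] at ht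
        obtain ⟨k2, k3, k⟩ := h3 t ht.2
        refine ⟨k2, k3, ?_⟩
        rw [hφ1]
        unfold mv
        have hne : t ≠ c - y := ht.1
        simp only [Function.update_apply, Prod.mk.injEq]
        simp [hne, k]
      have s4 : (insert y U2).card + (insert (c - y) U3).card + 2 * (i2 :: L').length ≤ m + 2 := by
        have k1 := card_insert_le y U2
        have k2 := card_insert_le (c - y) U3
        simp only [List.length_cons] at hc ⊢
        omega
      obtain ⟨φ', h6, h7⟩ := ih φ1 (insert y U2) (insert (c - y) U3) hn' s1 s2 s3 s4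
      refine ⟨φ', h6, fun i => ?_⟩
      have h8 := h7 i
      have h9 := hN i
      simp only [List.head?_cons, Option.some.injEq, List.mem_cons] at h8 ⊢
      simp only [List.mem_cons, not_or] at hi1
      by_cases ha : i1 = i
      · subst ha
        simp only [if_true] at h9 ⊢
        rw [if_neg (Ne.symm hi12)] at h8 h9
        rw [if_neg (by tauto)] at h8
        omega
      · rw [if_neg ha] at h9 ⊢
        by_cases hb : i2 = i
        · subst hb
          simp only [if_true, true_or, or_true] at h8 h9 ⊢
          omega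
        · rw [if_neg hb] at h8 h9
          have : (i = i1 ∨ i = i2 ∨ i ∈ L') ↔ (i = i2 ∨ i ∈ L') := by
            constructor
            · rintro (h | h)
              · exact absurd h.symm ha
              · exact h
            · exact Or.inr
          rw [if_congr this rfl rfl]
          omega

/-- collapse at `s` -/
def col (m : ℕ) [NeZero m] (s : ℕ) (y : ZMod (m + 1)) : Fin m :=
  if h : y.val < s ∧ y.val < m then ⟨y.val, h.2⟩ else
    if h : s < y.val then ⟨y.val - 1, by have := ZMod.val_lt y; omega⟩ else 0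

/-- the place before the collapse -/
def ee (s i : ℕ) : ℕ := if i < s then i else i + 1

theorem col_eq {m : ℕ} [NeZero m] {s : ℕ} (_hs : s ≤ m) {y : ZMod (m + 1)} {i : Fin m}
    (h : col m s y = i) : y.val = ee s i ∨ (y.val = s ∧ i = 0) := by
  unfold col at h
  unfold ee
  have := ZMod.val_lt y
  split_ifs at h with h1 h2
  · left
    subst h
    simp only
    rw [if_pos h1.1]
  · left
    subst h
    simp only
    rw [if_neg (by omega)]
    omega
  · right
    refine ⟨by omega, h.symm⟩

theorem col_ee {m : ℕ} [NeZero m] {s : ℕ} (hs : s ≤ m) {y : ZMod (m + 1)} {i : Fin m}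
    (h : y.val = ee s i) : col m s y = i := by
  unfold col
  unfold ee at h
  have := i.2
  apply Fin.ext
  split_ifs at h with h1
  · rw [dif_pos ⟨by omega, by omega⟩]
    exact h
  · rw [dif_neg (by omega), dif_pos (by omega)]
    simp only
    omega

theorem ee_lt {m s : ℕ} (i : Fin m) : ee s i < m + 1 := by
  unfold ee
  have := i.2
  split_ifs <;> omega

theorem col_card {m : ℕ} [NeZero m] {s : ℕ} (hs : s ≤ m) (i : Fin m) :
    (univ.filter (fun y => col m s y = i)).card ≤ 2 := by
  have hsub : univ.filter (fun y => col m s y = i) ⊆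
      ({((ee s i : ℕ) : ZMod (m + 1)), (s : ZMod (m + 1))} : Finset (ZMod (m + 1))) := by
    intro y hy
    have hy' := (mem_filter.1 hy).2
    rw [mem_insert, mem_singleton]
    rcases col_eq hs hy' with h | h
    · left
      rw [← h, ZMod.natCast_zmod_val]
    · right
      rw [← h.1, ZMod.natCast_zmod_val]
  exact (card_le_card hsub).trans card_le_two

theorem col_sum {m : ℕ} [NeZero m] {s : ℕ} (hs : s ≤ m) (i : Fin m) (hi : i ≠ 0) :
    (∑ y : ZMod (m + 1), if col m s y = i then y else 0) = ((ee s i : ℕ) : ZMod (m + 1)) := by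
  rw [Finset.sum_eq_single ((ee s i : ℕ) : ZMod (m + 1))]
  · rw [if_pos]
    refine col_ee hs ?_
    rw [ZMod.val_natCast_of_lt (ee_lt i)]
  · intro y _ hy
    rw [if_neg]
    intro h
    rcases col_eq hs h with h | h
    · exact hy (by rw [← h, ZMod.natCast_zmod_val])
    · exact hi h.2
  · simp

/-- the special place of a kind -/
def sp (m a : ℕ) (k : Fin 6) : ℕ := if k = 0 then 0 else if k = 1 then a else m

theorem sp_le {m a : ℕ} (ha : a ≤ m) (k : Fin 6) : sp m a k ≤ m := by
  unfold sp
  split_ifs <;> omega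

end AXL

open AXL

theorem ax : S_AX := by
  intro zz m hm D hD
  have : NeZero m := ⟨by omega⟩
  set x : ZMod (m + 1) := ∑ v ∈ D, lb v with hx
  set a : ℕ := (-x).val with ha
  have ham : a ≤ m := by
    have := ZMod.val_lt (-x)
    omega
  set b : Fin m → ZMod (m + 1) := fun i => if (i : ℕ) < a then 1 else 0 with hb
  set φ0 : Fin 6 × ZMod (m + 1) → Fin m := fun v => col m (sp m a v.1) v.2 with hφ0
  -- the total sum
  have htot : ∑ v : Fin 6 × ZMod (m + 1), lb v = 0 := by
    rw [Fintype.sum_prod_type, Fin.sum_univ_six]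
    have e : ∑ y : ZMod (m + 1), -y = -∑ y : ZMod (m + 1), y := Finset.sum_neg_distrib _
    simp only [lb, Fin.isValue, Fin.coe_ofNat_eq_mod, Nat.zero_mod, if_true, Nat.one_mod,
      one_ne_zero, if_false, Nat.reduceMod, e]
    ring
  have hs : ∀ φ : Fin 6 × ZMod (m + 1) → Fin m, ∑ i, (b i - G D lb φ i) = 0 := by
    intro φ
    rw [Finset.sum_sub_distrib]
    have h1 : ∑ i, G D lb φ i = -x := by
      unfold G
      have h2 : ∀ i, ∑ v ∈ univ.filter (fun v => v ∉ D ∧ φ v = i), lb v =
          ∑ v ∈ (univ.filter (fun v => v ∉ D)).filter (fun v => φ v = i), lb v := by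
        intro i
        rw [filter_filter]
      rw [Finset.sum_congr rfl fun i _ => h2 i, Finset.sum_fiberwise]
      have h3 : ∑ v ∈ univ.filter (fun v => v ∉ D), lb v + ∑ v ∈ D, lb v = 0 := by
        have h4 : univ.filter (fun v : Fin 6 × ZMod (m + 1) => v ∉ D) = univ \ D := by
          ext v; simp
        rw [h4, Finset.sum_sdiff (f := lb) (subset_univ D)]
        exact htot
      exact eq_neg_of_add_eq_zero_left h3
    have h2 : ∑ i, b i = -x := by
      rw [hb]
      simp only
      rw [Finset.sum_ite, Finset.sum_const_zero, add_zero, Finset.sum_const, nsmul_eq_mul, mul_one]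
      have h3 : (univ.filter (fun i : Fin m => (i : ℕ) < a)).card = a := by
        have : (univ.filter (fun i : Fin m => (i : ℕ) < a)).card =
            (Finset.range a).card := by
          refine Finset.card_bij (fun i _ => (i : ℕ)) ?_ ?_ ?_
          · intro i hi
            simpa using hi
          · intro i _ j _ h
            exact Fin.ext h
          · intro j hj
            have hj' := Finset.mem_range.1 hj
            exact ⟨⟨j, by omega⟩, by simpa using hj', rfl⟩
        rw [this, card_range]
      rw [h3, ha, ZMod.natCast_zmod_val]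
    rw [h1, h2, sub_self]
  -- the list
  set Ls : Finset (Fin m) := insert 0 (D.image φ0) with hLs
  set U2 : Finset (ZMod (m + 1)) := (D.filter (fun v => v.1 = 2 ∨ v.1 = 3)).image Prod.snd with hU2
  set U3 : Finset (ZMod (m + 1)) := (D.filter (fun v => v.1 = 4 ∨ v.1 = 5)).image Prod.snd with hU3
  have s1 : ∀ i, i ∉ Ls.toList → b i - G D lb φ0 i = 0 := by
    intro i hi
    rw [mem_toList, hLs, mem_insert, not_or, mem_image, not_exists] at hi
    have h1 : G D lb φ0 i = ∑ v : Fin 6 × ZMod (m + 1), if φ0 v = i then lb v else 0 := by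
      unfold G
      rw [Finset.sum_filter]
      refine Finset.sum_congr rfl fun v _ => ?_
      by_cases h : φ0 v = i
      · rw [if_pos h, if_pos ⟨fun hv => hi.2 v ⟨hv, h⟩, h⟩]
      · rw [if_neg h, if_neg (fun hh => h hh.2)]
    rw [h1, Fintype.sum_prod_type]
    have h2 : ∀ k : Fin 6, (∑ y : ZMod (m + 1), if φ0 (k, y) = i then lb (k, y) else 0) =
        if k.val % 2 = 0 then ((ee (sp m a k) i : ℕ) : ZMod (m + 1)) else
          -((ee (sp m a k) i : ℕ) : ZMod (m + 1)) := by
      intro k
      rw [← col_sum (sp_le ham k) i hi.1]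
      by_cases hk : k.val % 2 = 0
      · rw [if_pos hk]
        refine Finset.sum_congr rfl fun y _ => ?_
        simp [lb, hk, hφ0]
      · rw [if_neg hk, ← Finset.sum_neg_distrib]
        refine Finset.sum_congr rfl fun y _ => ?_
        simp only [lb, hk, hφ0, if_false]
        split_ifs <;> simp
    rw [Finset.sum_congr rfl fun k _ => h2 k, Fin.sum_univ_six]
    have hi' := i.2
    have s0 : ee (sp m a 0) i = i + 1 := by simp [ee, sp]
    have s1 : ((ee (sp m a 1) i : ℕ) : ZMod (m + 1)) = ((i + 1 : ℕ) : ZMod (m + 1)) - b i := by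
      rw [hb]
      simp only [ee, sp]
      by_cases h : (i : ℕ) < a
      · simp [h]
      · simp [h]
    have s2 : sp m a 2 = m := by simp [sp]
    have s3 : sp m a 3 = m := by simp [sp]
    have s4 : sp m a 4 = m := by simp [sp]
    have s5 : sp m a 5 = m := by simp [sp]
    rw [s0, s1, s2, s3, s4, s5]
    simp
  have s2 : ∀ y, y ∉ U2 → ((2 : Fin 6), y) ∉ D ∧ ((3 : Fin 6), y) ∉ D ∧
      φ0 ((2 : Fin 6), y) = φ0 ((3 : Fin 6), y) := by
    intro y hy
    refine ⟨fun h => hy ?_, fun h => hy ?_, ?_⟩
    · exact mem_image.2 ⟨_, mem_filter.2 ⟨h, Or.inl rfl⟩, rfl⟩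
    · exact mem_image.2 ⟨_, mem_filter.2 ⟨h, Or.inr rfl⟩, rfl⟩
    · simp [hφ0, sp]
  have s3 : ∀ y, y ∉ U3 → ((4 : Fin 6), y) ∉ D ∧ ((5 : Fin 6), y) ∉ D ∧
      φ0 ((4 : Fin 6), y) = φ0 ((5 : Fin 6), y) := by
    intro y hy
    refine ⟨fun h => hy ?_, fun h => hy ?_, ?_⟩
    · exact mem_image.2 ⟨_, mem_filter.2 ⟨h, Or.inl rfl⟩, rfl⟩
    · exact mem_image.2 ⟨_, mem_filter.2 ⟨h, Or.inr rfl⟩, rfl⟩
    · simp [hφ0, sp]
  have s4 : U2.card + U3.card + 2 * Ls.toList.length ≤ m + 2 := by
    have k1 : Ls.card ≤ zz + 1 := (card_insert_le _ _).trans (by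
      have := card_image_le (s := D) (f := φ0)
      omega)
    have k2 : U2.card ≤ (D.filter (fun v => v.1 = 2 ∨ v.1 = 3)).card := card_image_le
    have k3 : U3.card ≤ (D.filter (fun v => v.1 = 4 ∨ v.1 = 5)).card := card_image_le
    have k4 : (D.filter (fun v => v.1 = 2 ∨ v.1 = 3)).card +
        (D.filter (fun v => v.1 = 4 ∨ v.1 = 5)).card ≤ D.card := by
      rw [← card_union_of_disjoint]
      · exact card_le_card (union_subset (filter_subset _ _) (filter_subset _ _))
      · rw [Finset.disjoint_left]
        intro v hv hv'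
        have e1 := (mem_filter.1 hv).2
        have e2 := (mem_filter.1 hv').2
        rcases e1 with e1 | e1 <;> rcases e2 with e2 | e2 <;> rw [e1] at e2 <;>
          exact absurd e2 (by decide)
    rw [length_toList]
    omega
  obtain ⟨φ', h6, h7⟩ := repair m D b hs Ls.toList φ0 U2 U3 (nodup_toList _) s1 s2 s3 s4
  refine ⟨φ', fun i => ⟨?_, ?_⟩⟩
  · have h8 := h6 i
    have h9 : G D lb φ' i = b i := (sub_eq_zero.1 h8).symm
    unfold G at h9
    rw [h9, hb]
    simp only
    by_cases h : (i : ℕ) < a
    · right; rw [if_pos h]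
    · left; rw [if_neg h]
  · have h8 := h7 i
    unfold G at h8
    rw [← Finset.card_eq_sum_ones, ← Finset.card_eq_sum_ones] at h8
    have h9 : (univ.filter (fun v => v ∉ D ∧ φ0 v = i)).card ≤ 12 := by
      have h10 : (univ.filter (fun v : Fin 6 × ZMod (m + 1) => v ∉ D ∧ φ0 v = i)).card ≤
          (univ.filter (fun v : Fin 6 × ZMod (m + 1) => φ0 v = i)).card :=
        card_le_card fun v hv => by
          rw [mem_filter] at hv ⊢
          exact ⟨hv.1, hv.2.2⟩
      refine h10.trans ?_
      rw [Finset.card_filter, Fintype.sum_prod_type]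
      have h11 : ∀ k : Fin 6, ∑ y : ZMod (m + 1), (if φ0 (k, y) = i then 1 else 0) ≤ 2 := by
        intro k
        rw [← Finset.card_filter]
        exact col_card (sp_le ham k) i
      refine (Finset.sum_le_sum fun k _ => h11 k).trans ?_
      simp
    have h12 : (if Ls.toList.head? = some i then 2 else if i ∈ Ls.toList then 4 else 0) ≤ 4 := by
      split_ifs <;> omega
    omega

end Pool.Agent.H165.RG

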