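import Pool.Agent.H165.RG.Stm

set_option autoImplicit false

namespace Pool.Agent.H165.RG

open Finset

namespace CASML

/-- the embedding of an axis -/
def emb {d n0 m : ℕ} (a : Fin d) (v : Fin 6 × ZMod (m + 1)) : VV d n0 m :=
  (Sum.inl (a, v.1), v.2)

theorem emb_inj {d n0 m : ℕ} (a : Fin d) : Function.Injective (emb (n0 := n0) (m := m) a) := by
  rintro ⟨v1, v2⟩ ⟨w1, w2⟩ h
  simp only [emb, Prod.mk.injEq, Sum.inl.injEq, true_and] at h
  exact Prod.ext h.1 h.2

theorem lab_emb {d n0 m : ℕ} (a : Fin d) (v : Fin 6 × ZMod (m + 1)) :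
    lab (emb (n0 := n0) a v) a = lb v := by
  simp [lab, emb]

/-- the partial assignment -/
def tot {d n0 m : ℕ} (φ : Fin d → Fin 6 × ZMod (m + 1) → Fin m) (hm : 0 < m) (v : VV d n0 m) :
    Fin m :=
  match v.1 with
  | Sum.inl b => φ b.1 (b.2, v.2)
  | Sum.inr _ => ⟨0, hm⟩

end CASML

open CASML

theorem casm (hAX : S_AX) (hF : S_FILL) : S_CASM := by
  intro d n0 m h16 hm D hD
  have hm0 : 0 < m := by omega
  let Da : Fin d → Finset (Fin 6 × ZMod (m + 1)) := fun a => univ.filter (fun v => emb a v ∈ D)
  have hDa : ∀ a, (Da a).card ≤ 6 * d + n0 := by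
    intro a
    rw [← hD]
    apply Finset.card_le_card_of_injOn (emb a)
    · intro v hv
      have := (Finset.mem_filter.1 hv).2
      exact this
    · exact (emb_inj a).injOn
  choose φ hφ using fun a => hAX (6 * d + n0) m hm (Da a) (hDa a)
  have hcardV : Fintype.card (VV d n0 m) = (6 * d + n0) * (m + 1) := by
    simp only [VV, Fintype.card_prod, Fintype.card_sum, Fintype.card_fin, ZMod.card]
    ring
  have hS : (Dᶜ : Finset (VV d n0 m)).card = (6 * d + n0) * m := by
    rw [Finset.card_compl, hcardV, hD, Nat.mul_add, Nat.mul_one, Nat.add_sub_cancel]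
  let P : Finset (VV d n0 m) := Dᶜ.filter (fun v => v.1.isLeft = true)
  have hPS : P ⊆ Dᶜ := Finset.filter_subset _ _
  have hPc : ∀ i, (P.filter (fun v => tot φ hm0 v = i)).card ≤ 6 * d + n0 := by
    intro i
    have hsub : P.filter (fun v => tot φ hm0 v = i) ⊆
        univ.biUnion (fun a : Fin d =>
          (univ.filter (fun v : Fin 6 × ZMod (m + 1) => v ∉ Da a ∧ φ a v = i)).image (emb a)) := by
      rintro ⟨b, y⟩ hv
      rw [Finset.mem_filter, Finset.mem_filter, Finset.mem_compl] at hv
      obtain ⟨⟨hvD, hvl⟩, hvi⟩ := hv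
      rcases b with b | b
      · rw [Finset.mem_biUnion]
        refine ⟨b.1, Finset.mem_univ _, ?_⟩
        rw [Finset.mem_image]
        refine ⟨(b.2, y), ?_, rfl⟩
        rw [Finset.mem_filter]
        refine ⟨Finset.mem_univ _, ?_, hvi⟩
        intro hcon
        exact hvD (Finset.mem_filter.1 hcon).2
      · simp at hvl
    calc (P.filter (fun v => tot φ hm0 v = i)).card ≤ _ := Finset.card_le_card hsub
      _ ≤ ∑ a : Fin d, ((univ.filter
            (fun v : Fin 6 × ZMod (m + 1) => v ∉ Da a ∧ φ a v = i)).image (emb a)).card :=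
          Finset.card_biUnion_le
      _ ≤ ∑ _a : Fin d, 16 := by
          apply Finset.sum_le_sum
          intro a _
          exact Finset.card_image_le.trans (hφ a i).2
      _ = 16 * d := by simp [mul_comm]
      _ ≤ _ := h16
  obtain ⟨ψ, hψ1, hψ2⟩ := hF (VV d n0 m) m (6 * d + n0) P Dᶜ (tot φ hm0) hPS hS hPc
  have hsum : ∀ i a, (∑ v ∈ Dᶜ.filter (fun v => ψ v = i), lab v a) =
      ∑ v ∈ univ.filter (fun v => v ∉ Da a ∧ φ a v = i), lb v := by
    intro i a
    symm
    calc (∑ v ∈ univ.filter (fun v => v ∉ Da a ∧ φ a v = i), lb v)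
        = ∑ v ∈ univ.filter (fun v => v ∉ Da a ∧ φ a v = i), lab (emb (n0 := n0) a v) a := by
          apply Finset.sum_congr rfl
          intro v _
          rw [lab_emb]
      _ = ∑ v ∈ (univ.filter (fun v => v ∉ Da a ∧ φ a v = i)).image (emb a), lab v a := by
          rw [Finset.sum_image (fun x _ y _ h => emb_inj a h)]
      _ = _ := by
          apply Finset.sum_subset
          · intro v hv
            obtain ⟨w, hw, rfl⟩ := Finset.mem_image.1 hv
            obtain ⟨-, hw1, hw2⟩ := Finset.mem_filter.1 hw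
            have hwD : emb a w ∉ D := fun hcon => hw1 (Finset.mem_filter.2 ⟨Finset.mem_univ _, hcon⟩)
            rw [Finset.mem_filter]
            refine ⟨Finset.mem_compl.2 hwD, ?_⟩
            rw [hψ1 (emb a w) (Finset.mem_filter.2 ⟨Finset.mem_compl.2 hwD, rfl⟩)]
            exact hw2
          · rintro ⟨b, y⟩ hv hv2
            obtain ⟨hv1, hvi⟩ := Finset.mem_filter.1 hv
            rcases b with b | b
            · show (if b.1 = a then lb (b.2, y) else 0) = 0
              rw [if_neg]
              rintro rfl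
              apply hv2
              rw [Finset.mem_image]
              refine ⟨(b.2, y), ?_, rfl⟩
              rw [Finset.mem_filter]
              refine ⟨Finset.mem_univ _, ?_, ?_⟩
              · intro hcon
                exact (Finset.mem_compl.1 hv1) (Finset.mem_filter.1 hcon).2
              · rw [hψ1 _ (Finset.mem_filter.2 ⟨hv1, rfl⟩)] at hvi
                exact hvi
            · rfl
  refine ⟨fun i => Dᶜ.filter (fun v => ψ v = i),
    fun i a => decide ((∑ v ∈ Dᶜ.filter (fun v => ψ v = i), lab v a) = 1), ?_, ?_, ?_⟩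
  · intro i
    refine ⟨hψ2 i, fun a => ?_⟩
    rcases (hφ a i).1 with h | h
    · rw [← hsum i a] at h
      by_cases h1 : (∑ v ∈ Dᶜ.filter (fun v => ψ v = i), lab v a) = 1
      · simp only [h1, decide_true, if_true]
      · rw [if_neg (by simpa using h1)]
        exact h
    · rw [← hsum i a] at h
      simp only [h, decide_true, if_true]
  · intro i i' hii
    rw [Finset.disjoint_left]
    intro v hv hv'
    exact hii ((Finset.mem_filter.1 hv).2.symm.trans (Finset.mem_filter.1 hv').2)
  · intro i
    rw [Finset.disjoint_left]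
    intro v hv hv'
    exact (Finset.mem_compl.1 (Finset.mem_filter.1 hv).1) hv'

end Pool.Agent.H165.RG
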