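import Pool.Agent.H165.RG.Stm

/-! Leaf CNT: the number of D-edges. -/

set_option autoImplicit false
set_option linter.unusedSectionVars false

namespace Pool.Agent.H165.RG

open Finset

namespace CNTL

variable {V G : Type} [Fintype V] [DecidableEq V] [Fintype G] [DecidableEq G] {nA nB c : ℕ}

/-- membership in the D-edge given by `a` and `b` -/
def mem (a : Finset (Fin nA)) (b : G → Finset (Fin nB)) : W V G nA nB c → Prop
  | Sum.inl i => i ∈ a
  | Sum.inr (Sum.inl x) => x.2 ∈ b x.1
  | Sum.inr (Sum.inr _) => False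

open Classical in
/-- the D-edge given by `a` and `b` -/
noncomputable def edge (q : Finset (Fin nA) × (G → Finset (Fin nB))) : Finset (W V G nA nB c) :=
  univ.filter (fun w => mem q.1 q.2 w)

theorem mem_edge (q : Finset (Fin nA) × (G → Finset (Fin nB))) (w : W V G nA nB c) :
    w ∈ edge q ↔ mem q.1 q.2 w := by
  classical
  simp [edge]

theorem edge_inj : Function.Injective
    (edge : Finset (Fin nA) × (G → Finset (Fin nB)) → Finset (W V G nA nB c)) := by
  intro q q' h
  refine Prod.ext ?_ ?_
  · ext i
    have h1 := (mem_edge q (Sum.inl i : W V G nA nB c)).symm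
    rw [h, mem_edge] at h1
    exact h1
  · funext g
    ext i
    have h1 := (mem_edge q (Sum.inr (Sum.inl (g, i)) : W V G nA nB c)).symm
    rw [h, mem_edge] at h1
    exact h1

theorem isD_edge {j l : ℕ} (q : Finset (Fin nA) × (G → Finset (Fin nB))) (h1 : q.1.card = j)
    (h2 : ∀ g, (q.2 g).card = l) : IsD j l (edge q : Finset (W V G nA nB c)) := by
  refine ⟨?_, ?_, ?_⟩
  · rw [← h1, cA]
    congr 1
    ext i
    rw [mem_filter, mem_edge]
    exact ⟨fun h => h.2, fun h => ⟨mem_univ _, h⟩⟩
  · intro g
    rw [← h2 g, cB]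
    congr 1
    ext i
    rw [mem_filter, mem_edge]
    exact ⟨fun h => h.2, fun h => ⟨mem_univ _, h⟩⟩
  · intro v
    rw [cC, card_eq_zero, filter_eq_empty_iff]
    intro i _ h
    rw [mem_edge] at h
    exact h

end CNTL

theorem cnt : S_CNT := by
  intro V G _ _ _ _ nA nB c j l
  refine ⟨(powersetCard j (univ : Finset (Fin nA)) ×ˢ
    Fintype.piFinset (fun _ : G => powersetCard l (univ : Finset (Fin nB)))).image CNTL.edge, ?_, ?_⟩
  · intro f hf
    rw [mem_image] at hf
    obtain ⟨q, hq, rfl⟩ := hf
    rw [mem_product, mem_powersetCard, Fintype.mem_piFinset] at hq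
    exact CNTL.isD_edge q hq.1.2 (fun g => (mem_powersetCard.1 (hq.2 g)).2)
  · rw [card_image_of_injective _ CNTL.edge_inj, card_product, card_powersetCard,
      Fintype.card_piFinset]
    simp

end Pool.Agent.H165.RG
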