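import Pool.Agent.H165.RG.Stm

/-! # RG project, leaf FILL (helper484, for helper165) -/

set_option autoImplicit false

namespace Pool.Agent.H165.RG

open Finset

theorem FILLL.sum_groups {X : Type} [DecidableEq X] {m : ℕ} (P : Finset X) (φ : X → Fin m) :
    ∑ i : Fin m, (P.filter (fun v => φ v = i)).card = P.card := by
  rw [← Finset.card_eq_sum_card_fiberwise (f := φ) (s := P) (t := univ)]
  intro x _
  simp

theorem fill : S_FILL := by
  intro X _ _ m z P S φ hPS hS hP
  induction h : (S \ P).card generalizing P φ with
  | zero =>
    have hSP : P = S := by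
      apply Finset.Subset.antisymm hPS
      exact Finset.sdiff_eq_empty_iff_subset.1 (Finset.card_eq_zero.1 h)
    subst hSP
    refine ⟨φ, fun _ _ => rfl, ?_⟩
    have h1 : ∑ i : Fin m, (P.filter (fun v => φ v = i)).card = ∑ _i : Fin m, z := by
      rw [FILLL.sum_groups, hS]
      simp [mul_comm]
    have h2 := (Finset.sum_eq_sum_iff_of_le (fun i _ => hP i)).1 h1
    exact fun i => h2 i (Finset.mem_univ i)
  | succ n ih =>
    have hlt : P.card < z * m := by
      have : (S \ P).card = S.card - P.card := Finset.card_sdiff_of_subset hPS
      omega
    obtain ⟨i, hi⟩ : ∃ i, (P.filter (fun v => φ v = i)).card < z := by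
      by_contra hcon
      push Not at hcon
      have h1 : ∑ _i : Fin m, z ≤ ∑ i : Fin m, (P.filter (fun v => φ v = i)).card :=
        Finset.sum_le_sum (fun i _ => hcon i)
      rw [FILLL.sum_groups] at h1
      simp only [Finset.sum_const, Finset.card_univ, Fintype.card_fin, smul_eq_mul] at h1
      rw [mul_comm] at h1
      omega
    obtain ⟨v, hv⟩ : (S \ P).Nonempty := by
      rw [← Finset.card_pos]; omega
    have hvS : v ∈ S := (Finset.mem_sdiff.1 hv).1
    have hvP : v ∉ P := (Finset.mem_sdiff.1 hv).2
    have hupd : ∀ w ∈ P, Function.update φ v i w = φ w := by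
      intro w hw
      apply Function.update_of_ne
      rintro rfl
      exact hvP hw
    have hfil : ∀ i', ((insert v P).filter (fun w => Function.update φ v i w = i')).card ≤ z := by
      intro i'
      rw [Finset.filter_insert]
      have hcongr : P.filter (fun w => Function.update φ v i w = i') =
          P.filter (fun w => φ w = i') := by
        apply Finset.filter_congr
        intro w hw
        rw [hupd w hw]
      rw [hcongr]
      by_cases hii : i = i'
      · subst hii
        simp only [Function.update_self, if_true]
        refine (Finset.card_insert_le _ _).trans ?_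
        omega
      · simp only [Function.update_self, hii, if_false]
        exact hP i'
    have hcard : (S \ insert v P).card = n := by
      rw [Finset.sdiff_insert, Finset.card_erase_of_mem hv, h]
      rfl
    obtain ⟨ψ, h1, h2⟩ := ih (insert v P) (Function.update φ v i)
      (Finset.insert_subset hvS hPS) hfil hcard
    refine ⟨ψ, ?_, h2⟩
    intro w hw
    rw [h1 w (Finset.mem_insert_of_mem hw), hupd w hw]

end Pool.Agent.H165.RG
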