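import Pool.Agent.H165.RG.Stm

/-!
# Leaf FULL (helper142): explicit perfect matching of every type
-/

set_option autoImplicit false

namespace Pool.Agent.H165.RG

open Finset

namespace FULLL

/-- the shift -/
def sh {d n0 m : ℕ} (g : Fin d → Bool) (κ : (Fin d × Fin 6) ⊕ Fin n0) : ZMod (m + 1) :=
  match κ with
  | Sum.inl b => if b.2 = 1 then (if g b.1 then 1 else 0) else 0
  | Sum.inr _ => 0

theorem sum_lab (d n0 m : ℕ) (g : Fin d → Bool) (i : ZMod (m + 1)) (a : Fin d) :
    ∑ κ : (Fin d × Fin 6) ⊕ Fin n0, lab ((κ, i - sh g κ) : VV d n0 m) a = if g a then 1 else 0 := by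
  rw [Fintype.sum_sum_type]
  have h2 : ∑ b : Fin n0, lab ((Sum.inr b, i - sh g (Sum.inr b)) : VV d n0 m) a = 0 :=
    Finset.sum_eq_zero fun b _ => rfl
  rw [h2, add_zero, Fintype.sum_prod_type, Finset.sum_eq_single a]
  · rw [Fin.sum_univ_six]
    have h0 : ∀ s : Fin 6, s.val % 2 = 0 →
        lab ((Sum.inl (a, s), i - sh g (Sum.inl (a, s) : (Fin d × Fin 6) ⊕ Fin n0)) :
          VV d n0 m) a = i := by
      intro s hs
      have h1 : s ≠ 1 := by rintro rfl; exact absurd hs (by decide)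
      simp [lab, lb, sh, hs, h1]
    have h1 : ∀ s : Fin 6, s.val % 2 ≠ 0 → s ≠ 1 →
        lab ((Sum.inl (a, s), i - sh g (Sum.inl (a, s) : (Fin d × Fin 6) ⊕ Fin n0)) :
          VV d n0 m) a = -i := by
      intro s hs hs1
      simp only [lab, lb, sh]
      rw [if_pos trivial, if_neg hs, if_neg hs1, sub_zero]
    have h3 : lab ((Sum.inl (a, 1), i - sh g (Sum.inl (a, 1) : (Fin d × Fin 6) ⊕ Fin n0)) :
        VV d n0 m) a =
        -(i - if g a then 1 else 0) := by
      simp only [lab, lb, sh]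
      rw [if_pos trivial, if_neg (by decide), if_pos trivial]
    rw [h0 0 (by decide), h3, h0 2 (by decide), h1 3 (by decide) (by decide), h0 4 (by decide),
      h1 5 (by decide) (by decide)]
    ring
  · intro a' _ h
    refine Finset.sum_eq_zero fun s _ => ?_
    simp [lab, h]
  · intro h
    exact absurd (Finset.mem_univ a) h

end FULLL

theorem full : S_FULL := by
  intro d n0 m g
  have hinj : ∀ i : ZMod (m + 1), Function.Injective
      (fun κ : (Fin d × Fin 6) ⊕ Fin n0 => ((κ, i - FULLL.sh g κ) : VV d n0 m)) :=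
    fun i κ κ' h => congrArg Prod.fst h
  refine ⟨fun i => univ.image (fun κ : (Fin d × Fin 6) ⊕ Fin n0 =>
    ((κ, ((i : ℕ) : ZMod (m + 1)) - FULLL.sh g κ) : VV d n0 m)), fun i => ⟨?_, fun a => ?_⟩, ?_⟩
  · rw [Finset.card_image_of_injective _ (hinj _), card_univ, Fintype.card_sum, Fintype.card_prod,
      Fintype.card_fin, Fintype.card_fin, Fintype.card_fin]
    ring
  · rw [Finset.sum_image (fun κ _ κ' _ h => hinj _ h)]
    exact FULLL.sum_lab d n0 m g _ a
  · intro i i' hne
    rw [Finset.disjoint_left]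
    intro v hv hv'
    rw [Finset.mem_image] at hv hv'
    obtain ⟨κ, _, rfl⟩ := hv
    obtain ⟨κ', _, h⟩ := hv'
    have h1 : κ' = κ := congrArg Prod.fst h
    subst h1
    have h2 : ((i' : ℕ) : ZMod (m + 1)) - FULLL.sh g κ' = ((i : ℕ) : ZMod (m + 1)) - FULLL.sh g κ' :=
      congrArg Prod.snd h
    have h3 : ((i' : ℕ) : ZMod (m + 1)) = ((i : ℕ) : ZMod (m + 1)) := sub_left_injective h2
    apply hne
    apply Fin.ext
    have h4 := congrArg ZMod.val h3
    rw [ZMod.val_natCast_of_lt i'.isLt, ZMod.val_natCast_of_lt i.isLt] at h4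
    exact h4.symm

end Pool.Agent.H165.RG
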