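import Pool.Agent.H165.RG.Stm

/-!
# LB: the resilient lower bound from the packing lemma
-/

set_option autoImplicit false

namespace Pool.Agent.H165.RG

open Finset

namespace LBL

variable {V G : Type} [Fintype V] [DecidableEq V] [Fintype G] [DecidableEq G] {nA nB c : ℕ}

lemma card_eq (T : Finset (W V G nA nB c)) :
    T.card = cA T + ∑ g, cB g T + ∑ v, cC v T := by
  have h : T.card = ∑ x : W V G nA nB c, if x ∈ T then 1 else 0 := by
    rw [← Finset.card_filter]
    congr 1
    ext
    simp
  rw [h, Fintype.sum_sum_type, Fintype.sum_sum_type, Fintype.sum_prod_type, Fintype.sum_prod_type]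
  simp only [cA, cB, cC, Finset.card_filter]
  ring

end LBL

open LBL in
theorem lb_ (hPL : S_PL) : S_LB := by
  intro V G _ _ _ _ E z m r l a0 hG hr hp hz hl ha0 T hT
  have hr1 : 1 ≤ r := by
    rw [hr]
    exact Nat.one_le_iff_ne_zero.mpr (Nat.mul_ne_zero (by omega) (by omega))
  have hcard := card_eq T
  have hrz : r ≤ r * z := Nat.le_mul_of_pos_right r (by omega)
  have hrz1 : r * (z + 1) = r * z + r := by ring
  have hrm1 : r * (m + 1) = r * m + r := by ring
  have hB : ∀ g, cB g T ≤ ∑ g, cB g T := fun g =>
    Finset.single_le_sum (f := fun g => cB g T) (fun _ _ => Nat.zero_le _) (Finset.mem_univ g)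
  have hC : ∀ v, cC v T ≤ ∑ v, cC v T := fun v =>
    Finset.single_le_sum (f := fun v => cC v T) (fun _ _ => Nat.zero_le _) (Finset.mem_univ v)
  rcases Nat.lt_or_ge (cA T) (r * z) with hA | hA
  · -- first case
    set D' : Finset V := univ.filter (fun v => r ≤ cC v T) with hD'
    have hD1 : r * D'.card ≤ ∑ v, cC v T := by
      calc r * D'.card = ∑ _v ∈ D', r := by rw [Finset.sum_const, smul_eq_mul, mul_comm]
        _ ≤ ∑ v ∈ D', cC v T := by
            apply Finset.sum_le_sum
            intro v hv
            rw [hD', Finset.mem_filter] at hv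
            exact hv.2
        _ ≤ ∑ v, cC v T := Finset.sum_le_sum_of_subset (Finset.subset_univ _)
    have hD2 : D'.card ≤ z := by
      by_contra h
      push Not at h
      have h1 : r * (z + 1) ≤ r * D'.card := Nat.mul_le_mul_left r h
      omega
    obtain ⟨e, t, h1, h2, h3, h4⟩ := hG.rob D' hD2
    refine hPL V G E _ _ _ (r * z) l r a0 m T e t (by omega) hr1 h1 h2 ?_ ?_ ?_
    · omega
    · intro g
      have hg := hB g
      have hf : (univ.filter (fun i => t i = g)).card ≤ m := by
        refine (Finset.card_le_univ _).trans ?_
        simp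
      rcases Nat.lt_or_ge D'.card z with h | h
      · have h5 := h4 h g
        have h6 : r * (univ.filter (fun i => t i = g)).card + r * z ≤ r * m := by
          rw [← Nat.mul_add]
          exact Nat.mul_le_mul_left r h5
        omega
      · have h7 : D'.card = z := le_antisymm hD2 h
        rw [h7] at hD1
        have h6 : r * (univ.filter (fun i => t i = g)).card ≤ r * m := Nat.mul_le_mul_left r hf
        omega
    · intro i v hv
      have h5 : v ∉ D' := Finset.disjoint_left.mp (h3 i) hv
      rw [hD', Finset.mem_filter] at h5
      have h6 : ¬ r ≤ cC v T := fun h => h5 ⟨Finset.mem_univ _, h⟩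
      omega
  · -- second case
    have hrest : ∑ g, cB g T + ∑ v, cC v T ≤ r - 1 := by omega
    obtain ⟨g0, hg0⟩ : ∃ g0, cB g0 T ≤ l - 1 := by
      by_contra h
      push Not at h
      have h1 : Fintype.card G * l ≤ ∑ g, cB g T := by
        calc Fintype.card G * l = ∑ _g : G, l := by
              rw [Finset.sum_const, smul_eq_mul, Finset.card_univ]
          _ ≤ ∑ g, cB g T := by
              apply Finset.sum_le_sum
              intro g _
              have := h g
              omega
      omega
    obtain ⟨e, h1, h2⟩ := hG.full g0
    have ha : r * z * (a0 - 1) + r * z = r * z * a0 := by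
      rw [← Nat.mul_succ]
      congr 1
      omega
    have hla : l * (a0 - 1) + l = l * a0 := by
      rw [← Nat.mul_succ]
      congr 1
      omega
    obtain ⟨N, hN1, hN2, hN3⟩ := hPL V G E (r * z * a0 + r * z - 1) (r * (m + 1) + l * a0 - 1)
      (2 * r - 1) (r * z) l r (a0 - 1) (m + 1) T e (fun _ => g0) (by omega) hr1 h1 h2
      (by omega)
      (by
        intro g
        have hg := hB g
        by_cases hgg : g0 = g
        · subst hgg
          have h5 : (univ.filter (fun _ : Fin (m + 1) => g0 = g0)).card = m + 1 := by simp
          rw [h5]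
          omega
        · have h5 : (univ.filter (fun _ : Fin (m + 1) => g0 = g)).card = 0 := by
            rw [Finset.card_eq_zero, Finset.filter_eq_empty_iff]
            intro _ _
            exact hgg
          rw [h5, Nat.mul_zero]
          omega)
      (by
        intro i v _
        have := hC v
        omega)
    exact ⟨N, hN1, hN2, by omega⟩

end Pool.Agent.H165.RG
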