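import Pool.Agent.H165.RG.Stm

/-!
# RG-PL, the packing lemma (by helper215)
-/

set_option autoImplicit false

namespace Pool.Agent.H165.RG

open Finset

namespace PLL

/-- disjoint sets of prescribed sizes avoiding a given set -/
theorem asg {X : Type} [Fintype X] [DecidableEq X] {n : ℕ} (q : X → ℕ) (T : Finset (Fin n))
    (h : (∑ x, q x) + T.card ≤ n) : ∃ own : Fin n → Option X, (∀ y ∈ T, own y = none) ∧
      ∀ x, (univ.filter (fun y => own y = some x)).card = q x := by
  classical
  have hc : Fintype.card (Σ x, Fin (q x)) ≤ Fintype.card {y : Fin n // y ∉ T} := by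
    have h1 : Fintype.card {y : Fin n // y ∉ T} = n - T.card := by
      rw [Fintype.card_subtype_compl, Fintype.card_fin, Fintype.card_coe]
    rw [h1, Fintype.card_sigma]
    simp only [Fintype.card_fin]
    omega
  obtain ⟨f⟩ := Function.Embedding.nonempty_of_card_le hc
  obtain ⟨own, hown⟩ : ∃ own : Fin n → Option X,
      ∀ y x, own y = some x ↔ ∃ k : Fin (q x), ((f ⟨x, k⟩ : {y : Fin n // y ∉ T}) : Fin n) = y := by
    refine ⟨fun y => if h : ∃ p, ((f p : {y : Fin n // y ∉ T}) : Fin n) = y then some h.choose.1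
      else none, fun y x => ?_⟩
    constructor
    · intro h2
      by_cases h3 : ∃ p, ((f p : {y : Fin n // y ∉ T}) : Fin n) = y
      · simp only [dif_pos h3, Option.some.injEq] at h2
        subst h2
        exact ⟨h3.choose.2, h3.choose_spec⟩
      · simp only [dif_neg h3] at h2
        exact absurd h2 (by simp)
    · rintro ⟨k, hk⟩
      have h3 : ∃ p, ((f p : {y : Fin n // y ∉ T}) : Fin n) = y := ⟨⟨x, k⟩, hk⟩
      have h4 : h3.choose = ⟨x, k⟩ := f.injective (Subtype.ext (h3.choose_spec.trans hk.symm))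
      simp only [dif_pos h3, h4]
  refine ⟨own, fun y hy => ?_, fun x => ?_⟩
  · cases h2 : own y with
    | none => rfl
    | some x =>
      obtain ⟨k, hk⟩ := (hown y x).1 h2
      exact absurd (hk ▸ hy) (f ⟨x, k⟩).2
  · have h2 : univ.filter (fun y => own y = some x) =
        univ.image (fun k : Fin (q x) => ((f ⟨x, k⟩ : {y : Fin n // y ∉ T}) : Fin n)) := by
      ext y
      simp only [mem_filter, mem_univ, true_and, mem_image, hown]
    rw [h2, card_image_of_injective, card_univ, Fintype.card_fin]
    intro k k' hk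
    have h3 := f.injective (Subtype.ext hk)
    simpa using h3

end PLL

open PLL in
theorem pl : S_PL := by
  intro V G _ _ _ _ E nA nB c j l r nD m' T e t hj hr hE hdis hA hB hC
  classical
  -- the part in `A`
  obtain ⟨oA, oA1, oA2⟩ := asg (X := Fin nD ⊕ Fin m') (n := nA)
    (Sum.elim (fun _ => j) (fun _ => 0))
    (univ.filter (fun i : Fin nA => (Sum.inl i : W V G nA nB c) ∈ T)) (by
      have h1 : (univ.filter (fun i : Fin nA => (Sum.inl i : W V G nA nB c) ∈ T)).card = cA T := rfl
      rw [h1, Fintype.sum_sum_type]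
      simp only [Sum.elim_inl, Sum.elim_inr, sum_const, card_univ, Fintype.card_fin, smul_eq_mul,
        mul_zero, add_zero]
      rw [mul_comm nD j]
      exact hA)
  -- the part in `B`
  have hb : ∀ g : G, ∃ own : Fin nB → Option (Fin nD ⊕ Fin m'),
      (∀ y ∈ univ.filter (fun i : Fin nB => (Sum.inr (Sum.inl (g, i)) : W V G nA nB c) ∈ T),
        own y = none) ∧
      ∀ x, (univ.filter (fun y => own y = some x)).card =
        Sum.elim (fun _ => l) (fun i => if t i = g then r else 0) x := by
    intro g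
    refine asg _ _ ?_
    have h1 : (univ.filter (fun i : Fin nB => (Sum.inr (Sum.inl (g, i)) : W V G nA nB c) ∈ T)).card
      = cB g T := rfl
    rw [h1, Fintype.sum_sum_type]
    simp only [Sum.elim_inl, Sum.elim_inr, sum_const, card_univ, Fintype.card_fin, smul_eq_mul]
    rw [← sum_filter, sum_const, smul_eq_mul, mul_comm nD l, mul_comm _ r]
    exact hB g
  choose oB oB1 oB2 using hb
  -- the part in `C`
  have hc : ∀ v : V, ∃ own : Fin c → Option (Fin nD ⊕ Fin m'),
      (∀ y ∈ univ.filter (fun i : Fin c => (Sum.inr (Sum.inr (v, i)) : W V G nA nB c) ∈ T),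
        own y = none) ∧
      ∀ x, (univ.filter (fun y => own y = some x)).card =
        Sum.elim (fun _ => 0) (fun i => if v ∈ e i then r else 0) x := by
    intro v
    refine asg _ _ ?_
    have h1 : (univ.filter (fun i : Fin c => (Sum.inr (Sum.inr (v, i)) : W V G nA nB c) ∈ T)).card
      = cC v T := rfl
    rw [h1, Fintype.sum_sum_type]
    simp only [Sum.elim_inl, Sum.elim_inr, sum_const, card_univ, smul_eq_mul, mul_zero, zero_add]
    rw [← sum_filter, sum_const, smul_eq_mul]
    by_cases hv : ∃ i, v ∈ e i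
    · obtain ⟨i, hi⟩ := hv
      have h2 : (univ.filter (fun i => v ∈ e i)).card ≤ 1 := by
        rw [card_le_one]
        intro x hx y hy
        by_contra hne
        exact (Finset.disjoint_left.1 (hdis x y hne)) (mem_filter.1 hx).2 (mem_filter.1 hy).2
      have h3 := hC i v hi
      have h4 : (univ.filter (fun i => v ∈ e i)).card * r ≤ 1 * r := Nat.mul_le_mul_right r h2
      omega
    · have h2 : (univ.filter (fun i => v ∈ e i)).card = 0 := by
        rw [card_eq_zero, filter_eq_empty_iff]
        intro i _ hi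
        exact hv ⟨i, hi⟩
      have h3 : cC v T ≤ c := by
        unfold cC
        refine (card_filter_le _ _).trans ?_
        rw [card_univ, Fintype.card_fin]
      rw [h2]
      omega
  choose oC oC1 oC2 using hc
  obtain ⟨own, hown⟩ : ∃ own : W V G nA nB c → Option (Fin nD ⊕ Fin m'),
      own = Sum.elim oA (Sum.elim (fun p => oB p.1 p.2) (fun p => oC p.1 p.2)) := ⟨_, rfl⟩
  obtain ⟨F, hF⟩ : ∃ F : Fin nD ⊕ Fin m' → Finset (W V G nA nB c),
      ∀ x w, w ∈ F x ↔ own w = some x :=
    ⟨fun x => univ.filter (fun w => own w = some x), fun x w => by simp⟩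
  have cAF : ∀ x, cA (F x) = Sum.elim (fun _ => j) (fun _ => 0) x := by
    intro x
    rw [← oA2 x]
    unfold cA
    simp only [hF, hown, Sum.elim_inl]
  have cBF : ∀ g x, cB g (F x) = Sum.elim (fun _ => l) (fun i => if t i = g then r else 0) x := by
    intro g x
    rw [← oB2 g x]
    unfold cB
    simp only [hF, hown, Sum.elim_inl, Sum.elim_inr]
  have cCF : ∀ v x, cC v (F x) = Sum.elim (fun _ => 0) (fun i => if v ∈ e i then r else 0) x := by
    intro v x
    rw [← oC2 v x]
    unfold cC
    simp only [hF, hown, Sum.elim_inr]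
  have hFE : ∀ x, IsE j l r E (F x) := by
    rintro (i | i)
    · left
      refine ⟨?_, fun g => ?_, fun v => ?_⟩
      · rw [cAF]; rfl
      · rw [cBF]; rfl
      · rw [cCF]; rfl
    · right
      refine ⟨t i, ?_, ?_, fun g' hg' => ?_, e i, hE i, fun v => ?_⟩
      · rw [cAF]; rfl
      · rw [cBF]; simp
      · rw [cBF, Sum.elim_inr, if_neg (Ne.symm hg')]
      · rw [cCF]; rfl
  have hFd : ∀ x y, x ≠ y → Disjoint (F x) (F y) := by
    intro x y hxy
    rw [Finset.disjoint_left]
    intro w hx hy
    rw [hF] at hx hy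
    rw [hx] at hy
    exact hxy (Option.some.inj hy)
  have hFn : ∀ x, (F x).Nonempty := by
    rintro (i | i)
    · have h1 : 0 < cA (F (Sum.inl i)) := by
        rw [cAF]
        exact hj
      unfold cA at h1
      obtain ⟨a, ha⟩ := card_pos.1 h1
      exact ⟨_, (mem_filter.1 ha).2⟩
    · have h1 : 0 < cB (t i) (F (Sum.inr i)) := by
        rw [cBF, Sum.elim_inr, if_pos rfl]
        exact hr
      unfold cB at h1
      obtain ⟨a, ha⟩ := card_pos.1 h1
      exact ⟨_, (mem_filter.1 ha).2⟩
  have hFi : Function.Injective F := by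
    intro x y hxy
    by_contra hne
    have h1 := hFd x y hne
    rw [hxy, disjoint_self] at h1
    exact (hFn y).ne_empty h1
  refine ⟨univ.image F, ⟨?_, ?_⟩, ?_, ?_⟩
  · intro f hf
    obtain ⟨x, _, rfl⟩ := mem_image.1 hf
    exact hFE x
  · intro f hf f' hf' hne
    obtain ⟨x, _, rfl⟩ := mem_image.1 hf
    obtain ⟨y, _, rfl⟩ := mem_image.1 hf'
    exact hFd x y (fun h => hne (congrArg F h))
  · intro f hf
    obtain ⟨x, _, rfl⟩ := mem_image.1 hf
    rw [Finset.disjoint_left]
    intro w hw hT
    rw [hF, hown] at hw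
    rcases w with a | ⟨g, b⟩ | ⟨v, y⟩
    · have h1 := oA1 a (mem_filter.2 ⟨mem_univ _, hT⟩)
      rw [Sum.elim_inl, h1] at hw
      exact absurd hw (by simp)
    · have h1 := oB1 g b (mem_filter.2 ⟨mem_univ _, hT⟩)
      rw [Sum.elim_inr, Sum.elim_inl, h1] at hw
      exact absurd hw (by simp)
    · have h1 := oC1 v y (mem_filter.2 ⟨mem_univ _, hT⟩)
      rw [Sum.elim_inr, Sum.elim_inr, h1] at hw
      exact absurd hw (by simp)
  · rw [card_image_of_injective _ hFi, card_univ, Fintype.card_sum, Fintype.card_fin,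
      Fintype.card_fin]

end Pool.Agent.H165.RG
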