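import Pool.Agent.H165.RG.Stm

/-!
# Leaf PURE (helper142): perfect matchings have one type
-/

set_option autoImplicit false

namespace Pool.Agent.H165.RG

open Finset

namespace PUREL

theorem sum_lb (m : ℕ) : ∑ s : Fin 6, ∑ y : ZMod (m + 1), lb (s, y) = 0 := by
  have h0 : ∀ s : Fin 6, s.val % 2 = 0 → ∑ y : ZMod (m + 1), lb (s, y) = ∑ y : ZMod (m + 1), y := by
    intro s hs
    exact Finset.sum_congr rfl fun y _ => by simp [lb, hs]
  have h1 : ∀ s : Fin 6, s.val % 2 ≠ 0 →
      ∑ y : ZMod (m + 1), lb (s, y) = -∑ y : ZMod (m + 1), y := by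
    intro s hs
    rw [← Finset.sum_neg_distrib]
    refine Finset.sum_congr rfl fun y _ => ?_
    simp only [lb]
    rw [if_neg hs]
  rw [Fin.sum_univ_six, h0 0 (by decide), h1 1 (by decide), h0 2 (by decide), h1 3 (by decide),
    h0 4 (by decide), h1 5 (by decide)]
  ring

theorem sum_lab (d n0 m : ℕ) (a : Fin d) : ∑ v : VV d n0 m, lab v a = 0 := by
  rw [Fintype.sum_prod_type, Fintype.sum_sum_type]
  have h2 : ∑ b : Fin n0, ∑ y : ZMod (m + 1), lab ((Sum.inr b, y) : VV d n0 m) a = 0 :=
    Finset.sum_eq_zero fun b _ => Finset.sum_eq_zero fun y _ => rfl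
  rw [h2, add_zero, Fintype.sum_prod_type]
  have h3 : ∀ a' : Fin d, ∑ s : Fin 6, ∑ y : ZMod (m + 1),
      lab ((Sum.inl (a', s), y) : VV d n0 m) a = 0 := by
    intro a'
    by_cases h : a' = a
    · rw [← sum_lb m]
      refine Finset.sum_congr rfl fun s _ => Finset.sum_congr rfl fun y _ => ?_
      simp [lab, h]
    · refine Finset.sum_eq_zero fun s _ => Finset.sum_eq_zero fun y _ => ?_
      simp [lab, h]
  exact Finset.sum_eq_zero fun a' _ => h3 a'

end PUREL

theorem pure_ : S_PURE := by
  intro d n0 m e t he hd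
  have hcov : univ.biUnion e = (univ : Finset (VV d n0 m)) := by
    apply Finset.eq_univ_of_card
    rw [Finset.card_biUnion (fun i _ i' _ h => hd i i' h)]
    rw [Finset.sum_congr rfl (fun i _ => (he i).1)]
    simp only [sum_const, card_univ, Fintype.card_fin, smul_eq_mul, Fintype.card_prod,
      Fintype.card_sum, ZMod.card]
    ring
  have key : ∀ a : Fin d, (∀ i, t i a = false) ∨ ∀ i, t i a = true := by
    intro a
    have h1 : ∑ i : Fin (m + 1), (if t i a then (1 : ZMod (m + 1)) else 0) = 0 := by
      refine Eq.trans ?_ (PUREL.sum_lab d n0 m a)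
      rw [← hcov, Finset.sum_biUnion (fun i _ i' _ h => hd i i' h)]
      exact Finset.sum_congr rfl fun i _ => ((he i).2 a).symm
    rw [Finset.sum_boole] at h1
    rw [ZMod.natCast_eq_zero_iff] at h1
    rcases Nat.eq_zero_or_pos (#{i | t i a = true}) with h0 | h0
    · left
      intro i
      rw [Finset.card_eq_zero] at h0
      have : i ∉ (univ.filter fun i => t i a = true) := by rw [h0]; exact Finset.notMem_empty i
      simpa using this
    · right
      have h2 := Nat.le_of_dvd h0 h1
      have h3 : (univ.filter fun i => t i a = true) = univ := by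
        apply Finset.eq_univ_of_card
        apply le_antisymm
        · exact Finset.card_le_univ _
        · rw [Fintype.card_fin]; exact h2
      intro i
      have : i ∈ (univ.filter fun i => t i a = true) := by rw [h3]; exact Finset.mem_univ i
      simpa using this
  intro i i'
  funext a
  rcases key a with h | h
  · rw [h, h]
  · rw [h, h]

end Pool.Agent.H165.RG
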