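import Pool.Agent.H165.RG.Stm

/-!
# ROB: robustness of the gadget (helper190 for helper165)
-/

set_option autoImplicit false

namespace Pool.Agent.H165.RG

open Finset

namespace ROBL

/-- the sum of the labels of one kind -/
lemma sum_kind {m : ℕ} (κ : Fin 6) :
    (∑ y : ZMod (m + 1), lb (κ, y)) = if κ.val % 2 = 0 then ∑ y : ZMod (m + 1), y
      else -∑ y : ZMod (m + 1), y := by
  unfold lb
  split_ifs with h
  · rfl
  · exact Finset.sum_neg_distrib (fun y : ZMod (m + 1) => y)

/-- the label sum over all super-vertices is 0 -/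
lemma total {d n0 m : ℕ} (a : Fin d) : (∑ v : VV d n0 m, lab v a) = 0 := by
  rw [Fintype.sum_prod_type, Fintype.sum_sum_type]
  have h2 : (∑ x : Fin n0, ∑ y : ZMod (m + 1), lab ((Sum.inr x, y) : VV d n0 m) a) = 0 := by
    apply Finset.sum_eq_zero
    intro x _
    apply Finset.sum_eq_zero
    intro y _
    rfl
  have h1 : (∑ x : Fin d × Fin 6, ∑ y : ZMod (m + 1), lab ((Sum.inl x, y) : VV d n0 m) a) = 0 := by
    rw [Fintype.sum_prod_type, Finset.sum_eq_single a]
    · have h3 : ∀ κ : Fin 6, (∑ y : ZMod (m + 1), lab ((Sum.inl (a, κ), y) : VV d n0 m) a)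
          = ∑ y : ZMod (m + 1), lb (κ, y) := by
        intro κ
        apply Finset.sum_congr rfl
        intro y _
        unfold lab
        simp
      simp only [h3, sum_kind]
      rw [Fin.sum_univ_six]
      simp only [Fin.isValue, Fin.val_zero, Fin.val_one, Fin.val_two]
      norm_num
    · intro b _ hb
      apply Finset.sum_eq_zero
      intro κ _
      apply Finset.sum_eq_zero
      intro y _
      unfold lab
      simp [hb]
    · intro h
      exact absurd (Finset.mem_univ a) h
  rw [h1, h2, add_zero]

lemma card_VV (d n0 m : ℕ) : Fintype.card (VV d n0 m) = (6 * d + n0) * (m + 1) := by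
  simp only [VV, Fintype.card_prod, Fintype.card_sum, Fintype.card_fin, ZMod.card]
  ring

/-- `m` disjoint super-edges outside of a set of size `z` cover its complement -/
lemma cover {d n0 m : ℕ} {D : Finset (VV d n0 m)} (hD : D.card = 6 * d + n0)
    {e : Fin m → Finset (VV d n0 m)} {t : Fin m → Fin d → Bool} (he : ∀ i, EE (t i) (e i))
    (hdis : ∀ i i', i ≠ i' → Disjoint (e i) (e i')) (hD' : ∀ i, Disjoint (e i) D) (a : Fin d) :
    ((univ.filter (fun i => t i a = true)).card : ZMod (m + 1)) + ∑ v ∈ D, lab v a = 0 := by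
  have hcU : (univ.biUnion e).card = m * (6 * d + n0) := by
    rw [Finset.card_biUnion (fun i _ i' _ h => hdis i i' h)]
    simp only [(he _).1, Finset.sum_const, Finset.card_univ, Fintype.card_fin, smul_eq_mul]
  have hUD : Disjoint (univ.biUnion e) D := by
    rw [Finset.disjoint_biUnion_left]
    intro i _
    exact hD' i
  have huniv : univ.biUnion e ∪ D = univ := by
    apply Finset.eq_univ_of_card
    rw [Finset.card_union_of_disjoint hUD, hcU, hD, card_VV]
    ring
  have h1 := total (d := d) (n0 := n0) (m := m) a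
  rw [← huniv, Finset.sum_union hUD, Finset.sum_biUnion (fun i _ i' _ h => hdis i i' h)] at h1
  have h2 : ∀ i, (∑ v ∈ e i, lab v a) = if t i a = true then 1 else 0 := fun i => (he i).2 a
  simp only [h2] at h1
  rw [Finset.sum_boole] at h1
  exact h1

/-- choice of the extra super-vertex -/
lemma choice {d n0 m : ℕ} (a : Fin d) (hm : 4 * (6 * d + n0) + 10 ≤ m)
    {D : Finset (VV d n0 m)} (hD : D.card + 1 = 6 * d + n0) :
    ∃ X : ℕ, 6 * d + n0 + 1 ≤ X ∧ X + (6 * d + n0) ≤ m + 1 ∧
      ((Sum.inl (a, 0), (X : ZMod (m + 1)) - ∑ v ∈ D, lab v a) : VV d n0 m) ∉ D := by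
  by_contra hcon
  push Not at hcon
  set y0 := ∑ v ∈ D, lab v a with hy0
  have hsub : (Finset.Icc (6 * d + n0 + 1) (m + 1 - (6 * d + n0))).image
      (fun X : ℕ => ((Sum.inl (a, 0), (X : ZMod (m + 1)) - y0) : VV d n0 m)) ⊆ D := by
    intro v hv
    rw [Finset.mem_image] at hv
    obtain ⟨X, hX, rfl⟩ := hv
    rw [Finset.mem_Icc] at hX
    exact hcon X hX.1 (by omega)
  have hinj : Set.InjOn (fun X : ℕ => ((Sum.inl (a, 0), (X : ZMod (m + 1)) - y0) : VV d n0 m))
      (Finset.Icc (6 * d + n0 + 1) (m + 1 - (6 * d + n0)) : Finset ℕ) := by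
    intro X hX Y hY hXY
    rw [Finset.mem_coe, Finset.mem_Icc] at hX hY
    simp only [Prod.mk.injEq, true_and, sub_left_inj] at hXY
    rw [ZMod.natCast_eq_natCast_iff'] at hXY
    rwa [Nat.mod_eq_of_lt (by omega), Nat.mod_eq_of_lt (by omega)] at hXY
  have hc := Finset.card_le_card hsub
  rw [Finset.card_image_of_injOn hinj, Nat.card_Icc] at hc
  omega

end ROBL

theorem rob (h : S_CASM) : S_ROB := by
  intro d n0 m hd hz hm D hD
  rcases Nat.lt_or_ge D.card (6 * d + n0) with hlt | hge
  · -- fewer than `z` deleted vertices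
    set a : Fin d := ⟨0, hd⟩ with ha
    obtain ⟨D1, hDD1, -, hD1⟩ := Finset.exists_subsuperset_card_eq (Finset.subset_univ D)
      (n := 6 * d + n0 - 1) (by omega) (by
        rw [Finset.card_univ, ROBL.card_VV]
        have : 6 * d + n0 ≤ (6 * d + n0) * (m + 1) := Nat.le_mul_of_pos_right _ (by omega)
        omega)
    obtain ⟨X, hX1, hX2, hX3⟩ := ROBL.choice a hm (D := D1) (by omega)
    set v0 : VV d n0 m := (Sum.inl (a, 0), (X : ZMod (m + 1)) - ∑ v ∈ D1, lab v a) with hv0
    have hD2 : (insert v0 D1).card = 6 * d + n0 := by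
      rw [Finset.card_insert_of_notMem hX3]
      omega
    obtain ⟨e, t, he, hdis, hdD⟩ := h d n0 m hz hm (insert v0 D1) hD2
    refine ⟨e, t, he, hdis, fun i => (hdD i).mono_right
      (hDD1.trans (Finset.subset_insert _ _)), fun _ g => ?_⟩
    have hcov := ROBL.cover hD2 he hdis hdD a
    have hsum : (∑ v ∈ insert v0 D1, lab v a) = (X : ZMod (m + 1)) := by
      rw [Finset.sum_insert hX3]
      have : lab v0 a = (X : ZMod (m + 1)) - ∑ v ∈ D1, lab v a := by
        rw [hv0]
        unfold lab lb
        simp
      rw [this]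
      ring
    rw [hsum] at hcov
    set n1 := (univ.filter (fun i => t i a = true)).card with hn1
    have hn1m : n1 ≤ m := by
      calc n1 ≤ (univ : Finset (Fin m)).card := Finset.card_le_card (Finset.filter_subset _ _)
        _ = m := by simp
    have hdvd : m + 1 ∣ n1 + X := by
      rw [← ZMod.natCast_eq_zero_iff]
      push_cast
      exact hcov
    have heq : n1 + X = m + 1 := by
      obtain ⟨c, hc⟩ := hdvd
      have hc1 : c = 1 := by
        rcases c with _ | _ | c
        · omega
        · rfl
        · exfalso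
          have : (m + 1) * (c + 1 + 1) = (m + 1) * c + 2 * (m + 1) := by ring
          have h5 : 0 ≤ (m + 1) * c := Nat.zero_le _
          omega
      rw [hc, hc1, mul_one]
    cases hg : g a with
    | true =>
      have h1 : (univ.filter (fun i => t i = g)).card ≤ n1 := by
        apply Finset.card_le_card
        intro i hi
        rw [Finset.mem_filter] at hi ⊢
        exact ⟨hi.1, by rw [hi.2, hg]⟩
      omega
    | false =>
      have h2 : (univ.filter (fun i => t i = g)).card
          ≤ (univ.filter (fun i => ¬ t i a = true)).card := by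
        apply Finset.card_le_card
        intro i hi
        rw [Finset.mem_filter] at hi ⊢
        exact ⟨hi.1, by rw [hi.2, hg]; decide⟩
      have h3 := Finset.card_filter_add_card_filter_not (s := (univ : Finset (Fin m)))
        (fun i => t i a = true)
      rw [Finset.card_univ, Fintype.card_fin] at h3
      omega
  · -- exactly `z` deleted vertices
    obtain ⟨e, t, he, hdis, hdD⟩ := h d n0 m hz hm D (by omega)
    exact ⟨e, t, he, hdis, hdD, fun hlt => absurd hlt (by omega)⟩

end Pool.Agent.H165.RG
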