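import Pool.Agent.H165.RG.Stm

/-!
# UB: the matching number is at most `a0 + m` (helper297, for helper165)
-/

set_option autoImplicit false

namespace Pool.Agent.H165.RG

open Finset

namespace UBL

theorem sum_le {α : Type} [DecidableEq α] {n : ℕ} (ι : Fin n → α) (N : Finset (Finset α))
    (hN : ∀ f ∈ N, ∀ f' ∈ N, f ≠ f' → Disjoint f f') :
    ∑ f ∈ N, (univ.filter (fun i => ι i ∈ f)).card ≤ n := by
  have h : (N : Set (Finset α)).PairwiseDisjoint fun f => univ.filter (fun i => ι i ∈ f) := by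
    intro f hf f' hf' hne
    rw [Function.onFun, Finset.disjoint_left]
    intro i hi hi'
    exact (Finset.disjoint_left.1 (hN f hf f' hf' hne)) (mem_filter.1 hi).2 (mem_filter.1 hi').2
  rw [← card_biUnion h]
  exact (card_le_univ _).trans (by simp)

end UBL

theorem ub : S_UB := by
  intro V G _ _ _ _ E z m r l j a0 hE hz hr hl hj ha0 N hN
  classical
  obtain ⟨hN1, hN2⟩ := hN
  -- counting in the three parts
  have hA : ∑ f ∈ N, cA f ≤ j * a0 + j - 1 := UBL.sum_le _ N hN2
  have hB : ∀ g, ∑ f ∈ N, cB g f ≤ r * (m + 1) + l * a0 - 1 := fun g => UBL.sum_le _ N hN2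
  have hC : ∀ v, ∑ f ∈ N, cC v f ≤ 2 * r - 1 := fun v => UBL.sum_le _ N hN2
  obtain ⟨ND, hND⟩ : ∃ ND, ND = N.filter fun f => IsD j l f := ⟨_, rfl⟩
  obtain ⟨NZ, hNZ⟩ : ∃ NZ, NZ = N.filter fun f => ¬ IsD j l f := ⟨_, rfl⟩
  have hcard : ND.card + NZ.card = N.card := by
    rw [hND, hNZ]
    exact card_filter_add_card_filter_not _
  have hZ : ∀ f : {f // f ∈ NZ}, ∃ g, IsZ r E g f.1 := by
    rintro ⟨f, hf⟩
    rw [hNZ, mem_filter] at hf
    rcases hN1 f hf.1 with h | h
    · exact absurd h hf.2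
    · exact h
  choose t ht using hZ
  have hZ' : ∀ f : {f // f ∈ NZ}, ∃ e' : Finset V, E (t f) e' ∧
      ∀ v, cC v f.1 = if v ∈ e' then r else 0 := fun f => (ht f).2.2.2
  choose e' he' hcC using hZ'
  have hsub : NZ ⊆ N := by
    rw [hNZ]
    exact filter_subset _ _
  have hmem : ∀ f : {f // f ∈ NZ}, f.1 ∈ N := fun f => hsub f.2
  -- the super-edges are disjoint
  have hdis : ∀ f f' : {f // f ∈ NZ}, f ≠ f' → Disjoint (e' f) (e' f') := by
    intro f f' hne
    rw [Finset.disjoint_left]
    intro v hv hv'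
    have h1 := hcC f v
    have h2 := hcC f' v
    rw [if_pos hv] at h1
    rw [if_pos hv'] at h2
    have hne' : f.1 ≠ f'.1 := fun h => hne (Subtype.ext h)
    have h3 : ∑ x ∈ ({f.1, f'.1} : Finset _), cC v x ≤ ∑ x ∈ N, cC v x := by
      apply sum_le_sum_of_subset
      intro x hx
      rw [mem_insert, mem_singleton] at hx
      rcases hx with rfl | rfl
      · exact hmem f
      · exact hmem f'
    rw [sum_pair hne', h1, h2] at h3
    have h4 := hC v
    omega
  have hNZle : NZ.card ≤ m + 1 := by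
    have h1 : (univ.biUnion e').card = ∑ f : {f // f ∈ NZ}, (e' f).card :=
      card_biUnion fun f _ f' _ hne => hdis f f' hne
    have h2 : ∑ f : {f // f ∈ NZ}, (e' f).card = NZ.card * z := by
      rw [sum_congr rfl fun f _ => hE.unif _ _ (he' f), sum_const, smul_eq_mul, card_univ,
        Fintype.card_coe]
    have h3 := card_le_univ (univ.biUnion e')
    rw [h1, h2, hE.cardV, mul_comm z] at h3
    exact Nat.le_of_mul_le_mul_right h3 (by omega)
  have hNDle : ND.card ≤ a0 := by
    have h1 : ∑ f ∈ ND, cA f = j * ND.card := by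
      rw [sum_congr rfl fun f hf => ?_, sum_const, smul_eq_mul, mul_comm]
      rw [hND, mem_filter] at hf
      exact hf.2.1
    have h2 : ∑ f ∈ ND, cA f ≤ ∑ f ∈ N, cA f := by
      apply sum_le_sum_of_subset
      rw [hND]
      exact filter_subset _ _
    have h3 : j * ND.card < j * (a0 + 1) := by
      have e : j * (a0 + 1) = j * a0 + j := by ring
      omega
    have := Nat.lt_of_mul_lt_mul_left h3
    omega
  rcases Nat.lt_or_ge NZ.card (m + 1) with hlt | hge
  · omega
  · have hNZc : NZ.card = m + 1 := le_antisymm hNZle hge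
    obtain ⟨σ⟩ : Nonempty (Fin (m + 1) ≃ {f // f ∈ NZ}) := by
      apply Fintype.card_eq.1
      rw [Fintype.card_fin, Fintype.card_coe, hNZc]
    have hpure := hE.pure (fun i => e' (σ i)) (fun i => t (σ i)) (fun i => he' (σ i))
      (fun i i' hne => hdis _ _ fun h => hne (σ.injective h))
    obtain ⟨g, hg⟩ : ∃ g, g = t (σ 0) := ⟨_, rfl⟩
    have hall : ∀ f : {f // f ∈ NZ}, t f = g := by
      intro f
      have := hpure (σ.symm f) 0
      simp only [Equiv.apply_symm_apply] at this
      rw [this, hg]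
    have h1' : ∑ f ∈ NZ, cB g f = ∑ _f ∈ NZ, r := by
      refine sum_congr rfl fun f hf => ?_
      have h2 := (ht ⟨f, hf⟩).2.1
      rw [hall] at h2
      exact h2
    have h1 : ∑ f ∈ NZ, cB g f = r * (m + 1) := by
      rw [sum_const, smul_eq_mul, hNZc] at h1'
      exact h1'.trans (Nat.mul_comm _ _)
    have h2 : ∑ f ∈ ND, cB g f = l * ND.card := by
      rw [sum_congr rfl fun f hf => ?_, sum_const, smul_eq_mul, mul_comm]
      rw [hND, mem_filter] at hf
      exact hf.2.2.1 g
    have h3 : ∑ f ∈ ND, cB g f + ∑ f ∈ NZ, cB g f = ∑ f ∈ N, cB g f := by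
      rw [hND, hNZ]
      exact sum_filter_add_sum_filter_not _ _ _
    have h4 := hB g
    rw [← h3, h1, h2] at h4
    have h5 : 1 ≤ l * a0 := Nat.mul_pos hl ha0
    have h6 : l * ND.card < l * a0 := by omega
    have h7 := Nat.lt_of_mul_lt_mul_left h6
    omega

end Pool.Agent.H165.RG
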