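import Pool.Agent.H165.RG.Fin
import Pool.Agent.H165.RG.PL
import Pool.Agent.H165.RG.UB
import Pool.Agent.H165.RG.LB
import Pool.Agent.H165.RG.CNT
import Pool.Agent.H165.RG.ASY
import Pool.Agent.H165.RG.AX
import Pool.Agent.H165.RG.FILL
import Pool.Agent.H165.RG.CASM
import Pool.Agent.H165.RG.ROB
import Pool.Agent.H165.RG.PURE
import Pool.Agent.H165.RG.FULL

set_option autoImplicit false

namespace Pool.Agent.H165.RG

theorem all :
    ∃ k : ℕ, 4 ≤ k ∧ ∀ s0 : ℕ, ∃ s : ℕ, s0 ≤ s ∧ ∃ (n : ℕ) (F : Finset (Finset (Fin n))),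
      ResilientGraph k s F ∧ (k * s + k - 1).choose k < F.card :=
  final ub (lb_ pl) cnt asy pure_ full (rob (casm ax fill))

end Pool.Agent.H165.RG
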