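import Pool.Agent.H165.RG.Stm

set_option autoImplicit false

namespace Pool.Agent.H165.RG

open Finset

variable {V G : Type} [DecidableEq V] [DecidableEq G] {nA nB c : ℕ}

/-- the size of a vertex set is the sum of its parts -/
theorem card_eq [Fintype V] [Fintype G] (e : Finset (W V G nA nB c)) :
    e.card = cA e + (∑ g, cB g e + ∑ v, cC v e) := by
  have h : e.card = ∑ w : W V G nA nB c, if w ∈ e then 1 else 0 := by simp
  rw [h, Fintype.sum_sum_type, Fintype.sum_sum_type, Fintype.sum_prod_type, Fintype.sum_prod_type]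
  simp only [cA, cB, cC, card_filter]

theorem sum_cA_le (N : Finset (Finset (W V G nA nB c)))
    (h : ∀ f ∈ N, ∀ f' ∈ N, f ≠ f' → Disjoint f f') : ∑ f ∈ N, cA f ≤ nA := by
  unfold cA
  rw [← card_biUnion]
  · calc _ ≤ (univ : Finset (Fin nA)).card := card_le_card (subset_univ _)
      _ = nA := by simp
  · intro f hf f' hf' hne
    refine Finset.disjoint_left.mpr ?_
    intro i hi hi'
    simp only [mem_filter, mem_univ, true_and] at hi hi'
    exact (Finset.disjoint_left.mp (h f hf f' hf' hne)) hi hi'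

theorem sum_cB_le (N : Finset (Finset (W V G nA nB c)))
    (h : ∀ f ∈ N, ∀ f' ∈ N, f ≠ f' → Disjoint f f') (g : G) : ∑ f ∈ N, cB g f ≤ nB := by
  unfold cB
  rw [← card_biUnion]
  · calc _ ≤ (univ : Finset (Fin nB)).card := card_le_card (subset_univ _)
      _ = nB := by simp
  · intro f hf f' hf' hne
    refine Finset.disjoint_left.mpr ?_
    intro i hi hi'
    simp only [mem_filter, mem_univ, true_and] at hi hi'
    exact (Finset.disjoint_left.mp (h f hf f' hf' hne)) hi hi'

theorem sum_cC_le (N : Finset (Finset (W V G nA nB c)))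
    (h : ∀ f ∈ N, ∀ f' ∈ N, f ≠ f' → Disjoint f f') (v : V) : ∑ f ∈ N, cC v f ≤ c := by
  unfold cC
  rw [← card_biUnion]
  · calc _ ≤ (univ : Finset (Fin c)).card := card_le_card (subset_univ _)
      _ = c := by simp
  · intro f hf f' hf' hne
    refine Finset.disjoint_left.mpr ?_
    intro i hi hi'
    simp only [mem_filter, mem_univ, true_and] at hi hi'
    exact (Finset.disjoint_left.mp (h f hf f' hf' hne)) hi hi'

/-- for two disjoint sets -/
theorem cC_add_le {e f : Finset (W V G nA nB c)} (h : Disjoint e f) (v : V) : cC v e + cC v f ≤ c := by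
  unfold cC
  rw [← card_union_of_disjoint]
  · calc _ ≤ (univ : Finset (Fin c)).card := card_le_card (subset_univ _)
      _ = c := by simp
  · rw [Finset.disjoint_left]
    intro i hi hi'
    simp only [mem_filter, mem_univ, true_and] at hi hi'
    exact (Finset.disjoint_left.mp h) hi hi'

theorem sum_cA_cB_cC_le [Fintype V] [Fintype G] (T : Finset (W V G nA nB c)) (g : G) (D : Finset V) :
    cA T + cB g T + ∑ v ∈ D, cC v T ≤ T.card := by
  rw [card_eq T]
  have h1 : cB g T ≤ ∑ g, cB g T := single_le_sum (f := fun g => cB g T) (fun _ _ => Nat.zero_le _) (mem_univ g)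
  have h2 : ∑ v ∈ D, cC v T ≤ ∑ v, cC v T := sum_le_sum_of_subset (subset_univ D)
  omega

theorem IsD.card_eq [Fintype V] [Fintype G] {j l : ℕ} {e : Finset (W V G nA nB c)} (h : IsD j l e) :
    e.card = j + Fintype.card G * l := by
  rw [RG.card_eq e, h.1]
  simp [h.2.1, h.2.2]

theorem IsZ.card_eq [Fintype V] [Fintype G] {r z : ℕ} {E : G → Finset V → Prop} {g : G}
    {e : Finset (W V G nA nB c)} (h : IsZ r E g e) (hE : ∀ g e, E g e → e.card = z) :
    e.card = r + r * z := by
  obtain ⟨h1, h2, h3, e', h4, h5⟩ := h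
  rw [RG.card_eq e, h1]
  have hB : ∑ g', cB g' e = r := by
    rw [Finset.sum_eq_single g (fun g' _ hne => h3 g' hne) (fun hn => absurd (mem_univ g) hn), h2]
  have hC : ∑ v, cC v e = r * z := by
    simp only [h5]
    rw [Finset.sum_ite_mem, univ_inter, sum_const, smul_eq_mul, hE g e' h4]
    ring
  rw [hB, hC]
  ring

end Pool.Agent.H165.RG
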