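import Pool.Agent.H165.RG.Base

set_option autoImplicit false

namespace Pool.Agent.H165.RG

open Finset

/-- the matching number of `F` is `s` -/
def MatchingNumberIs {n : ℕ} (F : Finset (Finset (Fin n))) (s : ℕ) : Prop :=
  IsGreatest {m : ℕ | ∃ M : Finset (Finset (Fin n)),
    M ⊆ F ∧ (∀ e ∈ M, ∀ f ∈ M, e ≠ f → Disjoint e f) ∧ M.card = m} s

/-- `F` is a `(k-1)`-resilient `k`-graph on `Fin n` with matching number `s` -/
def ResilientGraph {n : ℕ} (k s : ℕ) (F : Finset (Finset (Fin n))) : Prop :=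
  (∀ e ∈ F, e.card = k) ∧ MatchingNumberIs F s ∧
    ∀ T : Finset (Fin n), T.card ≤ k - 1 → MatchingNumberIs (F.filter (fun e => Disjoint e T)) s

theorem gadget (hP : S_PURE) (hF : S_FULL) (hR : S_ROB) (d n0 m : ℕ) (hd : 1 ≤ d)
    (h1 : 16 * d ≤ 6 * d + n0) (h2 : 4 * (6 * d + n0) + 10 ≤ m) :
    IsGadget (EE (d := d) (n0 := n0) (m := m)) (6 * d + n0) m where
  cardV := by
    simp only [VV, Fintype.card_prod, Fintype.card_sum, Fintype.card_fin, ZMod.card]
    ring
  unif := fun g e h => h.1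
  pure := fun e t h1 h2 => hP d n0 m e t h1 h2
  full := fun g => hF d n0 m g
  rob := fun D hD => hR d n0 m hd h1 h2 D hD

theorem family (hUB : S_UB) (hLB : S_LB) (hCNT : S_CNT)
    (V G : Type) [Fintype V] [DecidableEq V] [Fintype G] [DecidableEq G] (E : G → Finset V → Prop)
    (z m r l a0 : ℕ) (hE : IsGadget E z m) (hr : r = Fintype.card G * l) (hG : 1 ≤ Fintype.card G)
    (hz : 1 ≤ z) (hl : 1 ≤ l) (ha : 1 ≤ a0) :
    ∃ (n : ℕ) (F : Finset (Finset (Fin n))), ResilientGraph (r * (z + 1)) (a0 + m) F ∧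
      (r * z * a0 + r * z - 1).choose (r * z) *
        ((r * (m + 1) + l * a0 - 1).choose l) ^ Fintype.card G ≤ F.card := by
  classical
  have hr1 : 1 ≤ r := by rw [hr]; exact Nat.mul_pos hG hl
  have hj1 : 1 ≤ r * z := Nat.mul_pos hr1 hz
  set W' := W V G (r * z * a0 + r * z - 1) (r * (m + 1) + l * a0 - 1) (2 * r - 1) with hW
  set n := Fintype.card W' with hn
  let φ : Finset (Fin n) ≃ Finset W' := (Fintype.equivFin W').symm.finsetCongr
  have hφ : ∀ f, φ f = f.map (Fintype.equivFin W').symm.toEmbedding := fun f => rfl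
  have hφs : ∀ f, φ.symm f = f.map (Fintype.equivFin W').toEmbedding := fun f => rfl
  have hcard : ∀ f, (φ f).card = f.card := fun f => by rw [hφ, card_map]
  have hdis : ∀ f f', Disjoint (φ f) (φ f') ↔ Disjoint f f' := fun f f' =>
    Finset.disjoint_map (Fintype.equivFin W').symm.toEmbedding
  let F : Finset (Finset (Fin n)) := univ.filter (fun f => IsE (r * z) l r E (φ f))
  have hFm : ∀ f, f ∈ F ↔ IsE (r * z) l r E (φ f) := fun f => by simp [F]
  have hmn : ∀ T : Finset (Fin n), T.card ≤ r * (z + 1) - 1 →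
      MatchingNumberIs (F.filter (fun e => Disjoint e T)) (a0 + m) := by
    intro T hT
    constructor
    · obtain ⟨N, hN, hNT, hNc⟩ := hLB V G E z m r l a0 hE hr hG hz hl ha (φ T) (by rw [hcard]; exact hT)
      refine ⟨N.map φ.symm.toEmbedding, ?_, ?_, by rw [card_map, hNc]⟩
      · intro f hf
        rw [mem_map_equiv, Equiv.symm_symm] at hf
        rw [mem_filter, hFm]
        exact ⟨hN.1 _ hf, (hdis _ _).mp (hNT _ hf)⟩
      · intro f hf f' hf' hne
        rw [mem_map_equiv, Equiv.symm_symm] at hf hf'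
        exact (hdis _ _).mp (hN.2 _ hf _ hf' (fun h => hne (φ.injective h)))
    · rintro x ⟨M, hM, hMd, rfl⟩
      have h := hUB V G E z m r l (r * z) a0 hE hz hr1 hl hj1 ha (M.map φ.toEmbedding) ?_
      · rwa [card_map] at h
      · constructor
        · intro f hf
          rw [mem_map] at hf
          obtain ⟨f0, hf0, rfl⟩ := hf
          exact (hFm f0).mp (mem_filter.mp (hM hf0)).1
        · intro f hf f' hf' hne
          rw [mem_map] at hf hf'
          obtain ⟨f0, hf0, rfl⟩ := hf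
          obtain ⟨f1, hf1, rfl⟩ := hf'
          exact (hdis _ _).mpr (hMd f0 hf0 f1 hf1 (fun h => hne (by rw [h])))
  refine ⟨n, F, ⟨?_, ?_, hmn⟩, ?_⟩
  · intro f hf
    rw [← hcard f]
    rcases (hFm f).mp hf with h | ⟨g, h⟩
    · rw [h.card_eq, ← hr]; ring
    · rw [h.card_eq hE.unif]; ring
  · have h := hmn ∅ (by simp)
    simpa using h
  · obtain ⟨N, hN, hNc⟩ := hCNT V G (r * z * a0 + r * z - 1) (r * (m + 1) + l * a0 - 1) (2 * r - 1)
      (r * z) l
    rw [← hNc, ← card_map φ.symm.toEmbedding]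
    apply card_le_card
    intro f hf
    rw [mem_map_equiv, Equiv.symm_symm] at hf
    exact (hFm f).mpr (Or.inl (hN _ hf))

theorem final (hUB : S_UB) (hLB : S_LB) (hCNT : S_CNT) (hASY : S_ASY) (hP : S_PURE) (hF : S_FULL)
    (hR : S_ROB) :
    ∃ k : ℕ, 4 ≤ k ∧ ∀ s0 : ℕ, ∃ s : ℕ, s0 ≤ s ∧ ∃ (n : ℕ) (F : Finset (Finset (Fin n))),
      ResilientGraph k s F ∧ (k * s + k - 1).choose k < F.card := by
  obtain ⟨l, hl, m0, hm⟩ := hASY
  refine ⟨256 * l * 129, by omega, fun s0 => ?_⟩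
  set m := m0 + s0 + 522 with hmdef
  have hg : IsGadget (EE (d := 8) (n0 := 80) (m := m)) 128 m :=
    gadget hP hF hR 8 80 m (by norm_num) (by norm_num) (by omega)
  have hcG : Fintype.card (Fin 8 → Bool) = 256 := by simp
  obtain ⟨n, F, hRes, hcard⟩ := family hUB hLB hCNT (VV 8 80 m) (Fin 8 → Bool) EE 128 m (256 * l) l
    (127 * (m + 1)) hg (by rw [hcG]) (by rw [hcG]; norm_num) (by norm_num) hl (by omega)
  refine ⟨127 * (m + 1) + m, by omega, n, F, ?_, ?_⟩
  · exact hRes
  · refine lt_of_lt_of_le ?_ hcard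
    have h := hm m (by omega)
    rw [hcG]
    have e1 : 256 * l * 129 * (127 * (m + 1) + m) + 256 * l * 129 = 256 * l * 129 * (128 * (m + 1)) := by
      ring
    rw [e1]
    exact h

end Pool.Agent.H165.RG
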