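import Mathlib

/-!
# Resilient k-graphs larger than the complete one (disproof of MP_c3ace4_co, Q1)

Overview.  The final `k`-graph lives on the vertex set `W V G nA nB c`: a set `A` of `nA` vertices, for every
type `g : G` a set `B_g` of `nB` vertices, and for every super-vertex `v : V` a cloud `C_v` of `c` vertices.
With `p = card G`, `r = p * l`, `j = r * z`, `k = r * (z + 1) = j + p * l`, `M = m + 1`,
`nA = j * a0 + j - 1`, `nB = r * M + l * a0 - 1`, `c = 2 * r - 1`, `s = a0 + m` the edges are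

* D-edges: `j` vertices of `A` and `l` vertices of every `B_g`;
* Z-edges of type `g`: `r` vertices of `B_g` and, for some super-edge `e'` of type `g` (a `z`-subset of `V`),
  exactly `r` vertices in every cloud `C_v`, `v ∈ e'`.

The super-hypergraph `E : G → Finset V → Prop` is a rigid gadget (`IsGadget`).
-/

set_option autoImplicit false

namespace Pool.Agent.H165.RG

open Finset

/-! ## the abstract part: from a gadget to a resilient k-graph -/

/-- vertex set of the final `k`-graph -/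
abbrev W (V G : Type) (nA nB c : ℕ) : Type := Fin nA ⊕ ((G × Fin nB) ⊕ (V × Fin c))

section basic

variable {V G : Type} [DecidableEq V] [DecidableEq G] {nA nB c : ℕ}

/-- number of vertices of `e` in `A` -/
def cA (e : Finset (W V G nA nB c)) : ℕ :=
  (univ.filter (fun i : Fin nA => (Sum.inl i : W V G nA nB c) ∈ e)).card

/-- number of vertices of `e` in `B_g` -/
def cB (g : G) (e : Finset (W V G nA nB c)) : ℕ :=
  (univ.filter (fun i : Fin nB => (Sum.inr (Sum.inl (g, i)) : W V G nA nB c) ∈ e)).card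

/-- number of vertices of `e` in the cloud `C_v` -/
def cC (v : V) (e : Finset (W V G nA nB c)) : ℕ :=
  (univ.filter (fun i : Fin c => (Sum.inr (Sum.inr (v, i)) : W V G nA nB c) ∈ e)).card

/-- D-edges -/
def IsD (j l : ℕ) (e : Finset (W V G nA nB c)) : Prop :=
  cA e = j ∧ (∀ g, cB g e = l) ∧ ∀ v, cC v e = 0

/-- Z-edges of type `g` -/
def IsZ (r : ℕ) (E : G → Finset V → Prop) (g : G) (e : Finset (W V G nA nB c)) : Prop :=
  cA e = 0 ∧ cB g e = r ∧ (∀ g', g' ≠ g → cB g' e = 0) ∧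
    ∃ e' : Finset V, E g e' ∧ ∀ v, cC v e = if v ∈ e' then r else 0

/-- an edge of the final family -/
def IsE (j l r : ℕ) (E : G → Finset V → Prop) (e : Finset (W V G nA nB c)) : Prop :=
  IsD j l e ∨ ∃ g, IsZ r E g e

/-- a family of pairwise disjoint edges of the final family -/
def IsM (j l r : ℕ) (E : G → Finset V → Prop) (N : Finset (Finset (W V G nA nB c))) : Prop :=
  (∀ f ∈ N, IsE j l r E f) ∧ ∀ f ∈ N, ∀ f' ∈ N, f ≠ f' → Disjoint f f'

end basic

/-- The rigid gadget with super-vertices `V`, types `G`, super-edges of size `z`, `m + 1` super-edges in a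
perfect matching. -/
structure IsGadget {V G : Type} [Fintype V] [DecidableEq V] [Fintype G] [DecidableEq G]
    (E : G → Finset V → Prop) (z m : ℕ) : Prop where
  cardV : Fintype.card V = z * (m + 1)
  unif : ∀ g e, E g e → e.card = z
  /-- perfect matchings are of one type -/
  pure : ∀ (e : Fin (m + 1) → Finset V) (t : Fin (m + 1) → G), (∀ i, E (t i) (e i)) →
    (∀ i i', i ≠ i' → Disjoint (e i) (e i')) → ∀ i i', t i = t i'
  /-- there is a perfect matching of every type -/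
  full : ∀ g, ∃ e : Fin (m + 1) → Finset V, (∀ i, E g (e i)) ∧ ∀ i i', i ≠ i' → Disjoint (e i) (e i')
  /-- robustness -/
  rob : ∀ D : Finset V, D.card ≤ z → ∃ (e : Fin m → Finset V) (t : Fin m → G), (∀ i, E (t i) (e i)) ∧
    (∀ i i', i ≠ i' → Disjoint (e i) (e i')) ∧ (∀ i, Disjoint (e i) D) ∧
    (D.card < z → ∀ g, (univ.filter (fun i => t i = g)).card + z ≤ m)

/-- PL, the packing lemma.  `T` is the forbidden set.
Proof: choose injections `α : Fin nD × Fin j → A \ T` (possible as `j * nD ≤ |A \ T| = nA - cA T`),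
`β_g : (Fin nD × Fin l) ⊕ ({i // t i = g} × Fin r) → B_g \ T`, and `γ_v : Fin r → C_v \ T` for every `v` in some
`e i`.  D-edge number `i < nD`: `α(i, ·)` together with `β_g(inl (i, ·))` for all `g`.  Z-edge number `i < m'`:
`β_{t i}(inr (i, ·))` together with `γ_v(·)`, `v ∈ e i`.  All these sets are pairwise disjoint, avoid `T`, and are
nonempty (`1 ≤ j`, `1 ≤ r`), hence distinct. -/
def S_PL : Prop :=
  ∀ (V G : Type) [Fintype V] [DecidableEq V] [Fintype G] [DecidableEq G] (E : G → Finset V → Prop)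
    (nA nB c j l r nD m' : ℕ) (T : Finset (W V G nA nB c)) (e : Fin m' → Finset V) (t : Fin m' → G),
    1 ≤ j → 1 ≤ r → (∀ i, E (t i) (e i)) → (∀ i i', i ≠ i' → Disjoint (e i) (e i')) →
    j * nD + cA T ≤ nA →
    (∀ g, l * nD + r * (univ.filter (fun i => t i = g)).card + cB g T ≤ nB) →
    (∀ i, ∀ v ∈ e i, r + cC v T ≤ c) →
    ∃ N : Finset (Finset (W V G nA nB c)), IsM j l r E N ∧ (∀ f ∈ N, Disjoint f T) ∧ N.card = nD + m'

/-- UB, the matching number is at most `a0 + m`.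
Proof.  Let `N_D` be the D-edges of `N` and `N_Z` the others, with types `g_f` and super-edges `e'_f`.
For `f ≠ f'` in `N_Z` the super-edges are disjoint (`v` in both gives `r + r ≤ |C_v| = 2 r - 1`), so
`|N_Z| * z ≤ |V| = z (m+1)` and `|N_Z| ≤ m + 1`.  Also `j |N_D| ≤ |A| = j a0 + j - 1` gives `|N_D| ≤ a0`.
If `|N_Z| ≤ m` we are done.  If `|N_Z| = m + 1`, enumerate `N_Z` by `Fin (m+1)`; by `pure` all types are equal
to one `g`, and counting in `B_g`: `r (m+1) + l |N_D| ≤ |B_g| = r (m+1) + l a0 - 1`, so `|N_D| ≤ a0 - 1`. -/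
def S_UB : Prop :=
  ∀ (V G : Type) [Fintype V] [DecidableEq V] [Fintype G] [DecidableEq G] (E : G → Finset V → Prop)
    (z m r l j a0 : ℕ), IsGadget E z m → 1 ≤ z → 1 ≤ r → 1 ≤ l → 1 ≤ j → 1 ≤ a0 →
    ∀ N : Finset (Finset (W V G (j * a0 + j - 1) (r * (m + 1) + l * a0 - 1) (2 * r - 1))),
      IsM j l r E N → N.card ≤ a0 + m

/-- LB, the resilient lower bound.
Proof.  Case 1, `cA T ≤ r z - 1`.  Let `D' = {v : r ≤ cC v T}`; `r |D'| ≤ |T| ≤ r (z+1) - 1`, so `|D'| ≤ z`.
Take `e, t` from `rob D'` and apply PL with `nD = a0`, `m' = m`.  Check: `r z a0 + cA T ≤ nA`; for `g`: if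
`|D'| = z` then `cB g T ≤ |T| - r z ≤ r - 1` and `#{i | t i = g} ≤ m`, so
`l a0 + r m + (r - 1) ≤ nB = r (m+1) + l a0 - 1`; if `|D'| < z` then `#{i | t i = g} ≤ m - z`, `cB g T ≤ r (z+1) - 1`
and again the sum is at most `l a0 + r (m - z) + r (z + 1) - 1 = nB`.  For `v ∈ e i`: `v ∉ D'`, so
`cC v T ≤ r - 1` and `r + cC v T ≤ 2 r - 1`.
Case 2, `r z ≤ cA T`.  Then the rest of `T` has at most `r (z+1) - 1 - r z = r - 1 = p l - 1` vertices; so some type
`g0` has `cB g0 T ≤ l - 1` (`∑ g, cB g T ≤ p l - 1`, `p = card G`).  Take `e` from `full g0`, `t` constant, and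
apply PL with `nD = a0 - 1`, `m' = m + 1`: `r z (a0 - 1) + cA T ≤ r z (a0 - 1) + r (z+1) - 1 ≤ nA = r z a0 + r z - 1`
(`z ≥ 1`); type `g0`: `l (a0 - 1) + r (m+1) + (l - 1) ≤ nB`; other types: `l (a0 - 1) + 0 + (r - 1) ≤ nB`; clouds:
`r + cC v T ≤ r + (r - 1)`.  Total `a0 - 1 + m + 1 = a0 + m`. -/
def S_LB : Prop :=
  ∀ (V G : Type) [Fintype V] [DecidableEq V] [Fintype G] [DecidableEq G] (E : G → Finset V → Prop)
    (z m r l a0 : ℕ), IsGadget E z m → r = Fintype.card G * l → 1 ≤ Fintype.card G → 1 ≤ z → 1 ≤ l → 1 ≤ a0 →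
    ∀ T : Finset (W V G (r * z * a0 + r * z - 1) (r * (m + 1) + l * a0 - 1) (2 * r - 1)),
      T.card ≤ r * (z + 1) - 1 →
      ∃ N : Finset (Finset (W V G (r * z * a0 + r * z - 1) (r * (m + 1) + l * a0 - 1) (2 * r - 1))),
        IsM (r * z) l r E N ∧ (∀ f ∈ N, Disjoint f T) ∧ N.card = a0 + m

/-- CNT, number of D-edges: the map (subset of `A` of size `j`, subsets of `Fin nB` of size `l` for every `g`) to
the D-edge is injective. -/
def S_CNT : Prop :=
  ∀ (V G : Type) [Fintype V] [DecidableEq V] [Fintype G] [DecidableEq G] (nA nB c j l : ℕ),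
    ∃ N : Finset (Finset (W V G nA nB c)), (∀ f ∈ N, IsD j l f) ∧
      N.card = nA.choose j * (nB.choose l) ^ Fintype.card G

/-- ASY, the numerical inequality.  Here `p = 256`, `z = 128`, `q = 127`, `M = m + 1`, `a0 = q M`,
`r = 256 l`, `j = 128 r`, `k = 129 r = j + 256 l`, `s + 1 = 128 M`.
Proof.  Write `k = j + 256 l`.  `C(j q M + j - 1, j) ≥ (j q M)^j / j!` and
`C(r M + l q M - 1, l) ≥ (r M + l q M - l)^l / l! = l^l ((p+q) M - 1)^l / l!` (`Nat.pow_sub_le_descFactorial`),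
`C(k 128 M - 1, k) ≤ (k 128 M)^k / k!`.  So it is enough that
`(128 k)^k M^k j! (l!)^256 < k! (127 j)^j M^j l^(256 l) (383 M - 1)^(256 l)`.  As `(383 M - 1)^(256 l) ≥
(383 M)^(256 l) (1 - 256 l / (383 M))` (Bernoulli) and `k = j + 256 l`, for fixed `l` and `M` large it is enough that
strictly `(128 k)^k j! (l!)^256 < k! (127 j)^j (383 l)^(256 l)`.  Use `n^n ≤ n! e^n` and `n! e^n ≤ e n^(n+1)`
(`n ≥ 1`; induction with `e ≤ (1+1/n)^(n+1)`):
`k! / (j! (l!)^256) ≥ (k^k e^(-k)) / ((e j^(j+1) e^(-j)) (e l^(l+1) e^(-l))^256) = k^k / (j^j l^(256 l)) / (e^257 j l^256)`.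
So it is enough that `128^k e^257 j l^256 < 127^j 383^(256 l)`; with `j = 128 * 256 l`, `k = 129 * 256 l` this is
`e^257 (128 * 256 l) l^256 < θ^(256 l)`, `θ = 127^128 * 383 / 128^129 > 1` (about `1.0965`; `norm_num`), true for
large `l`. -/
def S_ASY : Prop :=
  ∃ l : ℕ, 1 ≤ l ∧ ∃ m0 : ℕ, ∀ m : ℕ, m0 ≤ m →
    (256 * l * 129 * (128 * (m + 1)) - 1).choose (256 * l * 129) <
      (256 * l * 128 * (127 * (m + 1)) + 256 * l * 128 - 1).choose (256 * l * 128) *
        ((256 * l * (m + 1) + l * (127 * (m + 1)) - 1).choose l) ^ 256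

/-! ## the concrete gadget -/

/-- labels on one axis: kinds 0, 2, 4 of `y` have label `y`, kinds 1, 3, 5 have label `-y` -/
def lb {m : ℕ} (v : Fin 6 × ZMod (m + 1)) : ZMod (m + 1) := if v.1.val % 2 = 0 then v.2 else -v.2

/-- AX, the axis lemma.  Write `P y, N y` for kinds 0, 1 and `P2 y, N2 y`, `P3 y, N3 y` for kinds 2, 3 and 4, 5.
Proof.  Let `x = ∑ v ∈ D, lb v`, `a = (-x).val ≤ m`.

Base assignment `φ0`: `P y ↦ y.val - 1` (truncated); `N y ↦ y.val` if `y.val < a`, `0` if `y.val = a`, `y.val - 1` if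
`y.val > a`; kinds 2-5: `y ↦ y.val` if `y.val < m`, else `0`.  Group `i ≠ 0` has 6 elements, group 0 has at most 12.
Without deletions group `i` has sum `[i < a]`, except group 0, whose sum is off by the label `-a` of `N a`.
Put `b i = if i < a then 1 else 0`, `u φ i = b i - ∑ v ∉ D, φ v = i, lb v`.  Then `∑ i, u φ0 i = a + x = 0` and
`u φ0 i = 0` unless `i = 0` or `i ∈ φ0(D)`: let `L` be a duplicate free list with these at most `zz + 1` indices.

Repair, induction on the list `L` (statement for all `φ` and all finite sets `U2, U3` of exceptional `y`):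
if `L.Nodup`, `u φ i = 0` for `i ∉ L`, `∑ i, u φ i = 0`, for every `y ∉ U2`: `P2 y, N2 y ∉ D` and
`φ (P2 y) = φ (N2 y)`, for every `y ∉ U3`: the same with `P3, N3`, and `|U2| + |U3| + 2 |L| ≤ m + 2`, then there is
`φ'` with `u φ' = 0` and `#φ'-group i ≤ #φ-group i + (if i is the head of L then 2 else if i ∈ L then 4 else 0)`
(all groups without the elements of `D`).
For `L = []` or `[i]`: `φ' = φ`.  For `L = i1 :: i2 :: L'`: put `c = u φ i1`, choose `y ∉ U2` with `c - y ∉ U3`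
(`|U2| + |U3| ≤ m < m + 1`), move `P2 y` and `P3 (c - y)` to group `i1`, and `N2 y` and `N3 (c - y)` to group `i2`.  The
sums change only by `+ c` at `i1` and `- c` at `i2`; now `u = 0` at `i1`; apply the induction hypothesis to
`i2 :: L'`, `U2 ∪ {y}`, `U3 ∪ {c - y}`.
Start: `U2, U3` = the `y` with `P2 y` or `N2 y` (resp. `P3 y` or `N3 y`) in `D`; `|U2| + |U3| ≤ |D| ≤ zz`, `|L| ≤ zz + 1`.
Final sizes: at most `12 + 4`. -/
def S_AX : Prop :=
  ∀ (zz m : ℕ), 4 * zz + 10 ≤ m → ∀ D : Finset (Fin 6 × ZMod (m + 1)), D.card ≤ zz →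
    ∃ φ : Fin 6 × ZMod (m + 1) → Fin m, ∀ i : Fin m,
      ((∑ v ∈ univ.filter (fun v => v ∉ D ∧ φ v = i), lb v) = 0 ∨
        (∑ v ∈ univ.filter (fun v => v ∉ D ∧ φ v = i), lb v) = 1) ∧
      (univ.filter (fun v => v ∉ D ∧ φ v = i)).card ≤ 16

/-- FILL: a partial assignment with groups of size at most `z` extends to one with all groups of size `z`.
Induction on `(S \ P).card`: if `P = S` all groups have exactly `z` elements, since the sizes are `≤ z` with sum
`z * m`.  Otherwise some group of `P` has fewer than `z` elements (else `z m ≤ |P| < |S|`); put an element of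
`S \ P` there. -/
def S_FILL : Prop :=
  ∀ (X : Type) [Fintype X] [DecidableEq X] (m z : ℕ) (P S : Finset X) (φ : X → Fin m), P ⊆ S →
    S.card = z * m → (∀ i, (P.filter (fun v => φ v = i)).card ≤ z) →
    ∃ ψ : X → Fin m, (∀ v ∈ P, ψ v = φ v) ∧ ∀ i, (S.filter (fun v => ψ v = i)).card = z

/-- super-vertices: `d` axes with 6 kinds each and `n0` neutral kinds, each kind indexed by `ZMod (m + 1)` -/
abbrev VV (d n0 m : ℕ) : Type := ((Fin d × Fin 6) ⊕ Fin n0) × ZMod (m + 1)

/-- the label of a super-vertex on the axis `a` -/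
def lab {d n0 m : ℕ} (v : VV d n0 m) (a : Fin d) : ZMod (m + 1) :=
  match v.1 with
  | Sum.inl b => if b.1 = a then lb (b.2, v.2) else 0
  | Sum.inr _ => 0

/-- super-edges of type `g` -/
def EE {d n0 m : ℕ} (g : Fin d → Bool) (e : Finset (VV d n0 m)) : Prop :=
  e.card = 6 * d + n0 ∧ ∀ a, (∑ v ∈ e, lab v a) = if g a then 1 else 0

/-- PURE.  The `m + 1` disjoint sets of size `6 d + n0` cover `VV d n0 m`; the labels of all super-vertices on the
axis `a` have sum 0 (kinds cancel), so `#{i | t i a = true}` is `0` in `ZMod (m+1)` and at most `m + 1`, hence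
`0` or `m + 1`. -/
def S_PURE : Prop :=
  ∀ (d n0 m : ℕ) (e : Fin (m + 1) → Finset (VV d n0 m)) (t : Fin (m + 1) → Fin d → Bool),
    (∀ i, EE (t i) (e i)) → (∀ i i', i ≠ i' → Disjoint (e i) (e i')) → ∀ i i', t i = t i'

/-- FULL.  `e i = {(κ, i - sh κ)}` over all kinds `κ`, where `sh (inl (a, 1)) = 1` if `g a = true`, and
`sh = 0` otherwise: the sum on the axis `a` is `i - (i - [g a]) + i - i + i - i = [g a]`. -/
def S_FULL : Prop :=
  ∀ (d n0 m : ℕ) (g : Fin d → Bool), ∃ e : Fin (m + 1) → Finset (VV d n0 m),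
    (∀ i, EE g (e i)) ∧ ∀ i i', i ≠ i' → Disjoint (e i) (e i')

/-- CASM (uses AX and FILL).  For every axis `a` apply AX (`zz = 6 d + n0`) to
`D_a = {(κ, y) | (inl (a, κ), y) ∈ D}` (at most `|D|` elements) and get `φ_a`.  Let `S = Dᶜ`
(`|S| = (6 d + n0) m`), `P` the non-neutral elements of `S`, `φ (inl (a, κ), y) = φ_a (κ, y)`; the groups of `P` have
at most `16 d ≤ 6 d + n0` elements.  FILL gives `ψ`; `e i = S.filter (ψ · = i)`; neutral elements do not change
sums, so the sum on axis `a` of `e i` is the AX sum, `0` or `1`; this defines `t i a`. -/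
def S_CASM : Prop :=
  ∀ (d n0 m : ℕ), 16 * d ≤ 6 * d + n0 → 4 * (6 * d + n0) + 10 ≤ m →
    ∀ D : Finset (VV d n0 m), D.card = 6 * d + n0 →
    ∃ (e : Fin m → Finset (VV d n0 m)) (t : Fin m → Fin d → Bool), (∀ i, EE (t i) (e i)) ∧
      (∀ i i', i ≠ i' → Disjoint (e i) (e i')) ∧ ∀ i, Disjoint (e i) D

/-- ROB (uses CASM).  Put `z = 6 d + n0`.  If `|D| = z` use CASM (only the last condition is void).  If `|D| < z`
choose `D1 ⊇ D` with `|D1| = z - 1`, let `y0 = ∑ v ∈ D1, lab v a0` for the first axis `a0`; choose `X : ZMod (m+1)`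
with `z + 1 ≤ X.val ≤ m + 1 - z` and `v0 = (inl (a0, 0), X - y0) ∉ D1` (there are `m + 1 - 2 z > z - 1` such `X`,
and `X ↦ v0` is injective); apply CASM to `D2 = D1 ∪ {v0}`, `|D2| = z`, with label sum `X` on the axis `a0`.  The
`e i` are disjoint from `D2` and of size `z`, so they cover the complement of `D2` (`z m` elements), and the label sum
over everything is 0; so `n1 = #{i | t i a0 = true}` is `-X` in `ZMod (m+1)`, `n1 ≤ m`, hence
`n1 = m + 1 - X.val`.  If `g a0 = true` then `#{i | t i = g} ≤ n1 ≤ m - z`; if `g a0 = false` then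
`#{i | t i = g} ≤ m - n1 = X.val - 1 ≤ m - z`. -/
def S_ROB : Prop :=
  ∀ (d n0 m : ℕ), 1 ≤ d → 16 * d ≤ 6 * d + n0 → 4 * (6 * d + n0) + 10 ≤ m →
    ∀ D : Finset (VV d n0 m), D.card ≤ 6 * d + n0 →
    ∃ (e : Fin m → Finset (VV d n0 m)) (t : Fin m → Fin d → Bool), (∀ i, EE (t i) (e i)) ∧
      (∀ i i', i ≠ i' → Disjoint (e i) (e i')) ∧ (∀ i, Disjoint (e i) D) ∧
      (D.card < 6 * d + n0 → ∀ g, (univ.filter (fun i => t i = g)).card + (6 * d + n0) ≤ m)

end Pool.Agent.H165.RG
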